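import Pool.Agent.K7.H9.VC.Lim

/-!
# Alternating and non-alternating half-edges and the growth of the Kashaev invariant

The gauge transformation of `Gauge` with `λ = 0`, where every half-edge of a crossing may be marked or
not.
-/

set_option autoImplicit false

namespace Pool.Agent.K7.H9.VC

open Finset Filter Topology Pool.Agent.H550R3.Jones Pool.Agent.W715.VC Pool.Agent.W709.QAT
open Pool.Agent.W28.QAT (sum_bound wt wt_pos rate_nonneg log_prod_wt)
open GapVol (lob)
open scoped Real

variable {N : ℕ}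

/-- the mark `1` or `0` -/
def mk (b : Bool) : ℤ := if b then 1 else 0

/-- the rate of a crossing: `p`, `p'` say whether the two ends of the upper strand are marked, `u`, `u'`
whether the two ends of the lower strand are marked -/
noncomputable def crt (p p' u u' : Bool) : ℝ :=
  if p = false ∧ p' = false ∧ u = false ∧ u' = false then 8 * lob (π / 4)
  else 2 * lob (π / 6) * (1 + (if p && p' then 0 else 1) + (if u && u' then 0 else 1))

lemma tet {x y : ℝ} (hx : 0 ≤ x) (hy : 0 ≤ y) (h : x + y < π) :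
    lob x + lob y - lob (x + y) ≤ 2 * lob (π / 6) := by
  have h1 := conc hx hy h
  have h2 := tet2 (l := x + y) (by linarith) h.le
  linarith

/-- **the local estimate** -/
lemma local_le (p p' u u' : Bool) {y b z : ℝ} (hy : 0 ≤ y) (hb : 0 ≤ b) (hz : 0 ≤ z)
    (hyz : y + z < π) (hbz : b + z < π) :
    lob z + (1 - (mk u : ℝ)) * lob y - (1 - (mk u' : ℝ)) * lob (y + z) -
      (1 - (mk p : ℝ)) * lob (b + z) + (1 - (mk p' : ℝ)) * lob b ≤ crt p p' u u' / 2 := by
  have hM := lob_max
  have n1 : ∀ x : ℝ, -lob x ≤ lob (π / 6) := fun x => by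
    rw [← lob_pi_sub]
    exact lob_max _
  have h1 := hM z
  have h2 := hM y
  have h3 := hM b
  have h4 := n1 (y + z)
  have h5 := n1 (b + z)
  have t1 := tet hz hb (by linarith)
  have t2 := tet hz hy (by linarith)
  have e1 : z + b = b + z := add_comm _ _
  have e2 : z + y = y + z := add_comm _ _
  rw [e1] at t1
  rw [e2] at t2
  have f := one_calc hy hb hz hyz hbz
  have hm : 0 ≤ lob (π / 6) := by
    have := hM 0
    rwa [GapVol.lob_zero] at this
  unfold crt mk
  cases p <;> cases p' <;> cases u <;> cases u' <;> simp <;> linarith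

/-- the weighted entries of a positive crossing -/
lemma alt_ent (ε : ℝ) (hε : 0 < ε) : ∀ᶠ N : ℕ in atTop, ∀ p p' u u' : Bool, ∀ a b x y : Fin N,
    ‖PP N (a, b) (x, y)‖ * (W N 0 a ^ (-mk u') * W N 0 b ^ (mk p')) ≤
      Real.exp (N * (crt p p' u u' / (2 * π) + ε)) * (W N 0 x ^ (mk p) * W N 0 y ^ (-mk u)) := by
  have hpi := Real.pi_pos
  have hcont : ∀ᶠ N : ℕ in atTop, |lob (π / N)| ≤ π * (ε / 8) := by
    have h1 : Tendsto (fun N : ℕ => π / (N : ℝ)) atTop (𝓝 0) :=
      tendsto_const_div_atTop_nhds_zero_nat π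
    have h2 : Tendsto (fun N : ℕ => |lob (π / (N : ℝ))|) atTop (𝓝 0) := by
      have := ((GapVol.lob_cont.tendsto 0).comp h1).abs
      rw [GapVol.lob_zero, abs_zero] at this
      exact this
    have h3 := h2.eventually (gt_mem_nhds (show (0 : ℝ) < π * (ε / 8) by positivity))
    filter_upwards [h3] with N hN using hN.le
  filter_upwards [Pool.Agent.W563.QAT.lb (ε / 8) (by positivity), eventually_ge_atTop 1, hcont]
    with N hL hN hc p p' u u' a b x y
  have hNr : (0 : ℝ) < N := by exact_mod_cast hN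
  have wa := W_pos (l := 0) a.2
  have wb := W_pos (l := 0) b.2
  have wx := W_pos (l := 0) x.2
  have wy := W_pos (l := 0) y.2
  by_cases h : PP N (a, b) (x, y) = 0
  · rw [h, norm_zero, zero_mul]
    positivity
  · obtain ⟨e1, e2⟩ := pp_zero h
    dsimp only at e1 e2
    rw [norm_PP (a, b) (x, y) e1 e2]
    dsimp only
    set n : ℕ := (a : ℕ) - y with hn
    have ha : (a : ℕ) = y + n := by omega
    have hx : (x : ℕ) = b + n := by omega
    have hnN : n < N := by have := a.2; omega
    obtain ⟨a1, a2⟩ := hL a a.2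
    obtain ⟨b1, b2⟩ := hL b b.2
    obtain ⟨x1, x2⟩ := hL x x.2
    obtain ⟨y1, y2⟩ := hL y y.2
    obtain ⟨n1, n2⟩ := hL n hnN
    obtain ⟨t1, t2⟩ := hL (N - 1) (by omega)
    have e3 : π * ((N - 1 : ℕ) : ℝ) / N = π - π / N := by
      rw [Nat.cast_sub hN]
      push_cast
      field_simp
    rw [e3, lob_pi_sub] at t2
    -- the logarithm of the total
    set s : ℝ := Real.log (Fa N (N - 1)) with hs
    have hs1 : |s| ≤ ε / 4 * N := by
      have h1 : |s| ≤ |s + N / π * -lob (π / N)| + |N / π * lob (π / N)| := by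
        have := abs_add_le (s + N / π * -lob (π / N)) (N / π * lob (π / N))
        have e : s + N / π * -lob (π / N) + N / π * lob (π / N) = s := by ring
        rwa [e] at this
      have h2 : |(N : ℝ) / π * lob (π / N)| ≤ ε / 8 * N := by
        rw [abs_mul, abs_of_pos (by positivity)]
        calc (N : ℝ) / π * |lob (π / N)| ≤ N / π * (π * (ε / 8)) :=
              mul_le_mul_of_nonneg_left hc (by positivity)
          _ = ε / 8 * N := by field_simp
      linarith
    have lW : ∀ k : ℕ, k < N → Real.log (W N 0 k) = Real.log (Fa N k) - s / 2 := by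
      intro k hk
      unfold W
      rw [zero_div, zero_mul, Real.exp_zero, mul_one, Real.log_div (Fa_pos hk).ne'
        (Real.sqrt_pos.2 t1).ne', Real.log_sqrt t1.le]
    have hloc := local_le p p' u u' (y := π * (y : ℕ) / N) (b := π * (b : ℕ) / N)
      (z := π * (n : ℕ) / N) (by positivity) (by positivity) (by positivity)
      (by
        rw [← add_div, ← mul_add, div_lt_iff₀ hNr]
        have : ((y : ℕ) : ℝ) + n < N := by
          have := a.2
          rw [ha] at this
          exact_mod_cast this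
        exact mul_lt_mul_of_pos_left this hpi)
      (by
        rw [← add_div, ← mul_add, div_lt_iff₀ hNr]
        have : ((b : ℕ) : ℝ) + n < N := by
          have := x.2
          rw [hx] at this
          exact_mod_cast this
        exact mul_lt_mul_of_pos_left this hpi)
    have ea : π * (y : ℕ) / N + π * (n : ℕ) / N = π * ((a : ℕ) : ℝ) / N := by
      rw [ha]; push_cast; ring
    have ex : π * (b : ℕ) / N + π * (n : ℕ) / N = π * ((x : ℕ) : ℝ) / N := by
      rw [hx]; push_cast; ring
    rw [ea, ex] at hloc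
    rw [← Real.log_le_log_iff (by positivity) (by positivity),
      Real.log_mul (by positivity) (by positivity), Real.log_mul (by positivity) (by positivity),
      Real.log_div (by positivity) (by positivity), Real.log_mul (by positivity) (by positivity),
      Real.log_div (by positivity) (by positivity), Real.log_mul (by positivity) (by positivity),
      Real.log_mul (by positivity) (by positivity), Real.log_mul (by positivity) (by positivity),
      Real.log_zpow, Real.log_zpow, Real.log_zpow, Real.log_zpow, Real.log_exp,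
      lW a a.2, lW b b.2, lW x x.2, lW y y.2]
    have hloc2 := mul_le_mul_of_nonneg_left hloc (show (0 : ℝ) ≤ N / π by positivity)
    have a3 := abs_le.1 a2
    have b3 := abs_le.1 b2
    have x3 := abs_le.1 x2
    have y3 := abs_le.1 y2
    have n3 := abs_le.1 n2
    have s3 := abs_le.1 hs1
    have m1 : ∀ c : Bool, (mk c : ℝ) = 0 ∨ (mk c : ℝ) = 1 := by
      intro c
      unfold mk
      cases c <;> simp
    have hfin : (N : ℝ) * (crt p p' u u' / (2 * π) + ε) =
        N / π * (crt p p' u u' / 2) + N * ε := by ring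
    rw [hfin]
    push_cast
    rcases m1 p with hp | hp <;> rcases m1 p' with hp' | hp' <;> rcases m1 u with hu | hu <;>
      rcases m1 u' with hu' | hu' <;> rw [hp, hp', hu, hu'] at hloc2 ⊢ <;> linarith

/-- pieces of marked diagrams; the marks of the ends of the crossings -/
inductive MQ
  | cup (i : ℕ) (e : ℤ)
  | cap (i : ℕ)
  | cross (i : ℕ) (σ p p' u u' : Bool)
  | twist (i : ℕ) (σ : Bool) (m : ℕ)

/-- the piece without the marks -/
def MQ.piece : MQ → Piece
  | .cup i _ => .cup i
  | .cap i => .cap i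
  | .cross i σ _ _ _ _ => .twist i σ 1
  | .twist i σ m => .twist i σ m

/-- the marks above a piece, given the marks below -/
def MQ.step : MQ → List ℤ → Option (List ℤ)
  | .cup i e, ms => if i ≤ ms.length then some (ms.take i ++ e :: e :: ms.drop i) else none
  | .cap i, ms => match ms.drop i with
      | a :: b :: r => if a = b then some (ms.take i ++ r) else none
      | _ => none
  | .cross i σ p p' u u', ms => match ms.drop i with
      | a :: b :: r =>
        if σ then (if a = mk p ∧ b = -mk u then some (ms.take i ++ -mk u' :: mk p' :: r) else none)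
        else (if a = -mk u ∧ b = mk p then some (ms.take i ++ mk p' :: -mk u' :: r) else none)
      | _ => none
  | .twist i _ _, ms => match ms.drop i with
      | a :: b :: _ => if a = 0 ∧ b = 0 then some ms else none
      | _ => none

/-- the rate of a piece -/
noncomputable def MQ.rt : MQ → ℝ
  | .cross _ _ p p' u u' => crt p p' u u'
  | .twist _ _ m => rate m
  | _ => 0

/-- the polynomial part of the bound of a piece -/
noncomputable def MQ.kon : MQ → ℝ
  | .twist _ _ m => ((m : ℝ) + 1) ^ 2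
  | _ => 1

/-- the bound of a piece -/
noncomputable def MQ.cost (N : ℕ) (ε : ℝ) (P : MQ) : ℝ :=
  (N : ℝ) ^ 2 * (P.kon * Real.exp (N * (P.rt / (2 * π) + ε)))

lemma crt_nonneg (p p' u u' : Bool) : 0 ≤ crt p p' u u' := by
  have h1 := local_le p p' u u' (y := 0) (b := 0) (z := 0) le_rfl le_rfl le_rfl
    (by simpa using Real.pi_pos) (by simpa using Real.pi_pos)
  simp only [add_zero, GapVol.lob_zero, mul_zero, sub_zero] at h1
  linarith

lemma rt_nonneg (P : MQ) : 0 ≤ P.rt := by
  cases P with
  | cup i e => exact le_rfl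
  | cap i => exact le_rfl
  | cross i σ p p' u u' => exact crt_nonneg p p' u u'
  | twist i σ m => exact rate_nonneg m

lemma kon_pos (P : MQ) : 0 < P.kon := by
  cases P <;> unfold MQ.kon <;> positivity

lemma wt_kon (N : ℕ) (ε : ℝ) (i : ℕ) (σ : Bool) (m : ℕ) : wt N ε m =
    (MQ.twist i σ m).kon * Real.exp (N * ((MQ.twist i σ m).rt / (2 * π) + ε)) := by
  rfl

lemma mcost_pos (hN : 1 ≤ N) (ε : ℝ) (P : MQ) : 0 < P.cost N ε := by
  have hNr : (0 : ℝ) < N := by exact_mod_cast hN
  have := kon_pos P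
  unfold MQ.cost
  positivity

lemma crt_symm (p p' u u' : Bool) : crt u' u p' p = crt p p' u u' := by
  unfold crt
  cases p <;> cases p' <;> cases u <;> cases u' <;> simp

lemma mstep_bd {ε C : ℝ} (hN : 1 ≤ N) (hε : 0 ≤ ε)
    (hTW : ∀ m : ℕ, ∀ p q : Fin N × Fin N, ‖(PP N ^ m) p q‖ ≤ wt N ε m ∧
      ‖(QQ N ^ m) p q‖ ≤ wt N ε m)
    (hA : ∀ p p' u u' : Bool, ∀ a b x y : Fin N,
      ‖PP N (a, b) (x, y)‖ * (W N 0 a ^ (-mk u') * W N 0 b ^ (mk p')) ≤
      Real.exp (N * (crt p p' u u' / (2 * π) + ε)) * (W N 0 x ^ (mk p) * W N 0 y ^ (-mk u)))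
    (hC : 0 ≤ C) (P : MQ) {ms ms' : List ℤ} (hs : P.step ms = some ms') {f : List (Fin N) → ℂ}
    (hf : Bd N 0 C ms f) :
    Bd N 0 (P.cost N ε * C) ms' (P.piece.act N (rt N) f) := by
  have hNr : (1 : ℝ) ≤ N := by exact_mod_cast hN
  have hpi := Real.pi_pos
  have hN1 : (1 : ℝ) ≤ (N : ℝ) ^ 2 := by nlinarith
  have mono : ∀ {C1 C2 : ℝ} {ms : List ℤ} {f : List (Fin N) → ℂ}, C1 ≤ C2 → Bd N 0 C1 ms f →
      Bd N 0 C2 ms f := fun h h1 s hs => (h1 s hs).trans h
  have hexp : (1 : ℝ) ≤ Real.exp (N * (0 / (2 * π) + ε)) := by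
    rw [zero_div, zero_add]
    exact Real.one_le_exp (by positivity)
  have hcc : C ≤ (N : ℝ) ^ 2 * (1 * Real.exp (N * (0 / (2 * π) + ε))) * C := by
    rw [one_mul]
    have h1 : 1 ≤ (N : ℝ) ^ 2 * Real.exp (N * (0 / (2 * π) + ε)) := one_le_mul_of_one_le_of_one_le hN1 hexp
    calc C = 1 * C := (one_mul C).symm
      _ ≤ _ := mul_le_mul_of_nonneg_right h1 hC
  have hcc2 : (N : ℝ) ^ 2 * C ≤ (N : ℝ) ^ 2 * (1 * Real.exp (N * (0 / (2 * π) + ε))) * C := by
    rw [one_mul]
    calc (N : ℝ) ^ 2 * C = ((N : ℝ) ^ 2 * 1) * C := by ring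
      _ ≤ _ := mul_le_mul_of_nonneg_right (mul_le_mul_of_nonneg_left hexp (by positivity)) hC
  have hQ : ∀ p p' u u' : Bool, ∀ a b x y : Fin N,
      ‖QQ N (a, b) (x, y)‖ * (W N 0 a ^ (mk p') * W N 0 b ^ (-mk u')) ≤
      Real.exp (N * (crt p p' u u' / (2 * π) + ε)) *
        (W N 0 x ^ (-mk u) * W N 0 y ^ (mk p)) := by
    intro p p' u u' a b x y
    have h0 : 0 < N := hN
    rw [norm_QQ' h0]
    have wa := W_pos (l := 0) a.2
    have wb := W_pos (l := 0) b.2
    have wx := W_pos (l := 0) x.2
    have wy := W_pos (l := 0) y.2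
    have h1 := hA u' u p' p y x b a
    rw [crt_symm] at h1
    dsimp only
    have h2 := mul_le_mul_of_nonneg_right h1
      (show 0 ≤ W N 0 y ^ (mk p) * W N 0 x ^ (-mk u) *
        (W N 0 b ^ (-mk u') * W N 0 a ^ (mk p')) by positivity)
    have c1 : W N 0 y ^ (-mk p) * W N 0 y ^ (mk p) = 1 := by
      rw [← zpow_add₀ wy.ne', neg_add_cancel, zpow_zero]
    have c2 : W N 0 x ^ (mk u) * W N 0 x ^ (-mk u) = 1 := by
      rw [← zpow_add₀ wx.ne', add_neg_cancel, zpow_zero]
    have c3 : W N 0 b ^ (mk u') * W N 0 b ^ (-mk u') = 1 := by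
      rw [← zpow_add₀ wb.ne', add_neg_cancel, zpow_zero]
    have c4 : W N 0 a ^ (-mk p') * W N 0 a ^ (mk p') = 1 := by
      rw [← zpow_add₀ wa.ne', neg_add_cancel, zpow_zero]
    refine le_trans (le_of_eq ?_) (h2.trans (le_of_eq ?_))
    · calc _ = ‖PP N (y, x) (b, a)‖ * (1 * 1) *
            (W N 0 a ^ (mk p') * W N 0 b ^ (-mk u')) := by ring
        _ = ‖PP N (y, x) (b, a)‖ * ((W N 0 y ^ (-mk p) * W N 0 y ^ (mk p)) *
            (W N 0 x ^ (mk u) * W N 0 x ^ (-mk u))) *
            (W N 0 a ^ (mk p') * W N 0 b ^ (-mk u')) := by rw [c1, c2]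
        _ = _ := by ring
    · calc _ = Real.exp (N * (crt p p' u u' / (2 * π) + ε)) *
            ((W N 0 b ^ (mk u') * W N 0 b ^ (-mk u')) *
            (W N 0 a ^ (-mk p') * W N 0 a ^ (mk p'))) *
            (W N 0 y ^ (mk p) * W N 0 x ^ (-mk u)) := by ring
        _ = _ := by rw [c3, c4]; ring
  cases P with
  | cup i e =>
    simp only [MQ.step] at hs
    split_ifs at hs with hi
    rw [Option.some.injEq] at hs
    subst hs
    have hl : (ms.take i).length = i := by rw [List.length_take]; omega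
    rw [← List.take_append_drop i ms] at hf
    have h := bd_cup e hC hf
    rw [hl] at h
    exact mono hcc h
  | cap i =>
    rcases hd : ms.drop i with _ | ⟨a, _ | ⟨b, r⟩⟩
    · simp [MQ.step, hd] at hs
    · simp [MQ.step, hd] at hs
    · simp only [MQ.step, hd] at hs
      split_ifs at hs with hab
      rw [Option.some.injEq] at hs
      subst hs
      subst hab
      obtain ⟨hl, hms⟩ := take_len hd
      rw [hms] at hf
      have h := bd_cap a hC hf
      rw [hl] at h
      exact mono hcc2 h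
  | cross i σ p p' u u' =>
    rcases hd : ms.drop i with _ | ⟨a, _ | ⟨b, r⟩⟩
    · simp [MQ.step, hd] at hs
    · simp [MQ.step, hd] at hs
    · obtain ⟨hl, hms⟩ := take_len hd
      rw [hms] at hf
      cases σ
      · simp only [MQ.step, hd, Bool.false_eq_true, if_false] at hs
        split_ifs at hs with hab
        rw [Option.some.injEq] at hs
        subst hs
        obtain ⟨rfl, rfl⟩ := hab
        have h := bd_two (l := 0) (m := 1) (σ := false) (m1 := ms.take i) (m2 := r)
          (e1 := -mk u) (e2 := mk p) (d1 := mk p') (d2 := -mk u')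
          (Real.exp_pos (N * (crt p p' u u' / (2 * π) + ε))).le hC hf (by
            intro a b x y
            rw [if_neg (by simp), pow_one]
            exact hQ p p' u u' a b x y)
        rw [hl] at h
        refine mono (le_of_eq ?_) h
        show _ = (N : ℝ) ^ 2 * (1 * Real.exp (N * (crt p p' u u' / (2 * π) + ε))) * C
        ring
      · simp only [MQ.step, hd, if_true] at hs
        split_ifs at hs with hab
        rw [Option.some.injEq] at hs
        subst hs
        obtain ⟨rfl, rfl⟩ := hab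
        have h := bd_two (l := 0) (m := 1) (σ := true) (m1 := ms.take i) (m2 := r)
          (e1 := mk p) (e2 := -mk u) (d1 := -mk u') (d2 := mk p')
          (Real.exp_pos (N * (crt p p' u u' / (2 * π) + ε))).le hC hf (by
            intro a b x y
            rw [if_pos rfl, pow_one]
            exact hA p p' u u' a b x y)
        rw [hl] at h
        refine mono (le_of_eq ?_) h
        show _ = (N : ℝ) ^ 2 * (1 * Real.exp (N * (crt p p' u u' / (2 * π) + ε))) * C
        ring
  | twist i σ m =>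
    rcases hd : ms.drop i with _ | ⟨a, _ | ⟨b, r⟩⟩
    · simp [MQ.step, hd] at hs
    · simp [MQ.step, hd] at hs
    · simp only [MQ.step, hd] at hs
      split_ifs at hs with hab
      rw [Option.some.injEq] at hs
      subst hs
      obtain ⟨rfl, rfl⟩ := hab
      obtain ⟨hl, hms⟩ := take_len hd
      rw [hms] at hf
      have h := bd_twist (σ := σ) (m := m) hTW hC hf
      rw [hl, ← hms, wt_kon N ε i σ m] at h
      refine mono (le_of_eq ?_) h
      unfold MQ.cost
      ring

/-- the marks above a diagram -/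
def msteps (D : List MQ) (ms : List ℤ) : Option (List ℤ) :=
  D.foldl (fun o P => o.bind P.step) (some ms)

lemma mfoldl_none (D : List MQ) :
    D.foldl (fun o P => o.bind P.step) (none : Option (List ℤ)) = none := by
  induction D with
  | nil => rfl
  | cons P D ih => exact ih

theorem mrun_bd {ε : ℝ} (hN : 1 ≤ N) (hε : 0 ≤ ε)
    (hTW : ∀ m : ℕ, ∀ p q : Fin N × Fin N, ‖(PP N ^ m) p q‖ ≤ wt N ε m ∧
      ‖(QQ N ^ m) p q‖ ≤ wt N ε m)
    (hA : ∀ p p' u u' : Bool, ∀ a b x y : Fin N,
      ‖PP N (a, b) (x, y)‖ * (W N 0 a ^ (-mk u') * W N 0 b ^ (mk p')) ≤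
      Real.exp (N * (crt p p' u u' / (2 * π) + ε)) * (W N 0 x ^ (mk p) * W N 0 y ^ (-mk u)))
    (D : List MQ) : ∀ (C : ℝ), 0 ≤ C → ∀ {ms ms' : List ℤ}, msteps D ms = some ms' →
    ∀ {f : List (Fin N) → ℂ}, Bd N 0 C ms f →
    Bd N 0 ((D.map (MQ.cost N ε)).prod * C) ms' (run N (rt N) (D.map MQ.piece) f) := by
  induction D with
  | nil =>
    intro C hC ms ms' hs f hf
    have : ms = ms' := by simpa [msteps] using hs
    subst this
    simpa [run] using hf
  | cons P D ih =>
    intro C hC ms ms' hs f hf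
    have hs' : D.foldl (fun o P => o.bind P.step) (P.step ms) = some ms' := hs
    rcases hP : P.step ms with _ | ms1
    · rw [hP, mfoldl_none] at hs'
      exact absurd hs' (by simp)
    · rw [hP] at hs'
      have h1 := mstep_bd hN hε hTW hA hC P hP hf
      have h2 := ih (P.cost N ε * C) (mul_nonneg (mcost_pos hN ε P).le hC) hs' h1
      have e2 : run N (rt N) ((P :: D).map MQ.piece) f =
          run N (rt N) (D.map MQ.piece) (P.piece.act N (rt N) f) := by
        unfold run
        rw [List.map_cons, List.foldl_cons]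
      rw [e2, List.map_cons, List.prod_cons]
      refine fun s hs => (h2 s hs).trans (le_of_eq ?_)
      ring

/-- **the bound of the invariant** -/
theorem mjones_bd {ε : ℝ} (hN : 1 ≤ N) (hε : 0 ≤ ε)
    (hTW : ∀ m : ℕ, ∀ p q : Fin N × Fin N, ‖(PP N ^ m) p q‖ ≤ wt N ε m ∧
      ‖(QQ N ^ m) p q‖ ≤ wt N ε m)
    (hA : ∀ p p' u u' : Bool, ∀ a b x y : Fin N,
      ‖PP N (a, b) (x, y)‖ * (W N 0 a ^ (-mk u') * W N 0 b ^ (mk p')) ≤
      Real.exp (N * (crt p p' u u' / (2 * π) + ε)) * (W N 0 x ^ (mk p) * W N 0 y ^ (-mk u)))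
    (D : List MQ) {e d : ℤ} (hs : msteps D [e] = some [d]) :
    ‖jones N (D.map MQ.piece) (rt N)‖ ≤
      (D.map (MQ.cost N ε)).prod * W N 0 0 ^ (e - d) := by
  have h0 : 0 < N := hN
  unfold jones
  rw [dif_pos h0]
  set f0 : List (Fin N) → ℂ := fun s => if s = [(⟨0, h0⟩ : Fin N)] then 1 else 0 with hf0
  have hW := W_pos (N := N) (l := 0) h0
  have hB0 : Bd N 0 (W N 0 0 ^ e) [e] f0 := by
    intro s hs
    by_cases h : s = [(⟨0, h0⟩ : Fin N)]
    · rw [h, hf0]
      simp [wgt]
    · rw [hf0]
      dsimp only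
      rw [if_neg h, norm_zero, zero_mul]
      exact (zpow_pos hW _).le
  have h1 := mrun_bd hN hε hTW hA D _ (zpow_pos hW e).le hs hB0 [⟨0, h0⟩] rfl
  have e1 : wgt N 0 [d] [(⟨0, h0⟩ : Fin N)] = W N 0 0 ^ d := by simp [wgt]
  rw [e1] at h1
  rw [zpow_sub₀ hW.ne', ← mul_div_assoc, le_div_iff₀ (zpow_pos hW d)]
  exact h1

lemma mprod_pos (hN : 1 ≤ N) (ε : ℝ) (D : List MQ) : 0 < (D.map (MQ.cost N ε)).prod := by
  induction D with
  | nil => simp
  | cons P D ih =>
    rw [List.map_cons, List.prod_cons]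
    exact mul_pos (mcost_pos hN ε P) ih

lemma log_mprod (hN : 1 ≤ N) (ε : ℝ) (D : List MQ) : Real.log ((D.map (MQ.cost N ε)).prod) =
    D.length * (2 * Real.log N) + (D.map (fun P : MQ => Real.log P.kon)).sum +
      N / (2 * π) * (D.map MQ.rt).sum + N * ε * D.length := by
  have hNr : (0 : ℝ) < N := by exact_mod_cast hN
  induction D with
  | nil => simp
  | cons P D ih =>
    rw [List.map_cons, List.prod_cons, Real.log_mul (mcost_pos hN ε P).ne' (mprod_pos hN ε D).ne', ih,
      List.map_cons, List.sum_cons, List.map_cons, List.sum_cons, List.length_cons]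
    unfold MQ.cost
    rw [Real.log_mul (by positivity) (mul_pos (kon_pos P) (Real.exp_pos _)).ne',
      Real.log_mul (kon_pos P).ne' (Real.exp_pos _).ne', Real.log_exp, Real.log_pow]
    push_cast
    ring

lemma rsum_nonneg (D : List MQ) : 0 ≤ (D.map MQ.rt).sum :=
  List.sum_nonneg fun x hx => by
    obtain ⟨P, -, rfl⟩ := List.mem_map.1 hx
    exact rt_nonneg P

/-- **the growth of the Kashaev invariant, by the types of the crossings** -/
theorem alt_growth (D : List MQ) {e d : ℤ} (hs : msteps D [e] = some [d]) {ε : ℝ} (hε : 0 < ε) :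
    ∀ᶠ N : ℕ in atTop, 2 * π * (Real.log ‖jones N (D.map MQ.piece) (Pool.Agent.W715.VC.rt N)‖ / N) ≤
      (D.map MQ.rt).sum + ε := by
  have hpi := Real.pi_pos
  set T : ℝ := (D.length : ℝ) + ((e - d).natAbs : ℝ) + 1 with hT
  have hT0 : 0 < T := by positivity
  set δ : ℝ := ε / (4 * π * T) with hδd
  have hδ : 0 < δ := by positivity
  set K : ℝ := (D.map (fun P : MQ => Real.log P.kon)).sum with hK
  have hlim : Tendsto (fun N : ℕ => 2 * π * (((D.length : ℝ) * (2 * Real.log N) + K +
      ((e - d).natAbs : ℝ) * (Real.log N + 1)) / N)) atTop (𝓝 0) := by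
    have h1 : Tendsto (fun N : ℕ => Real.log (N : ℝ) / N) atTop (𝓝 0) := by
      have := (Real.isLittleO_log_id_atTop.tendsto_div_nhds_zero).comp
        (tendsto_natCast_atTop_atTop (R := ℝ))
      exact this
    have h2 : Tendsto (fun N : ℕ => (1 : ℝ) / N) atTop (𝓝 0) := tendsto_one_div_atTop_nhds_zero_nat
    have h3 := ((h1.const_mul (2 * (D.length : ℝ) + ((e - d).natAbs : ℝ))).add
      (h2.const_mul (K + ((e - d).natAbs : ℝ)))).const_mul (2 * π)
    simp only [mul_zero, add_zero] at h3
    refine h3.congr fun N => ?_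
    ring
  filter_upwards [Pool.Agent.W709.QAT.tw δ hδ, alt_ent δ hδ, Pool.Agent.W563.QAT.lb δ hδ,
    eventually_ge_atTop 2, hlim.eventually (gt_mem_nhds (show (0 : ℝ) < ε / 2 by positivity))]
    with N h1 hA h2 hN2 h4
  have hN : 1 ≤ N := by omega
  have hNr : (0 : ℝ) < N := by exact_mod_cast hN
  have hJ := mjones_bd hN hδ.le h1 hA D hs
  have hRHS : 0 ≤ (D.map MQ.rt).sum + ε := by
    have := rsum_nonneg D
    linarith
  rcases (norm_nonneg (jones N (D.map MQ.piece) (Pool.Agent.W715.VC.rt N))).eq_or_lt with h0 | h0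
  · rw [← h0, Real.log_zero, zero_div, mul_zero]
    exact hRHS
  have hW := W_pos (N := N) (l := 0) (x := 0) (by omega)
  have hlog := Real.log_le_log h0 hJ
  rw [Real.log_mul (mprod_pos hN δ D).ne' (zpow_pos hW _).ne', log_mprod hN, Real.log_zpow] at hlog
  have hF := log_top hN h2
  have hF1 : 0 < Fa N (N - 1) := Fa_pos (by omega)
  have hN1 : (2 : ℝ) ≤ N := by exact_mod_cast hN2
  have hlogN : 0 ≤ Real.log (N : ℝ) := Real.log_nonneg (by linarith)
  have hF2 : -(δ * N) ≤ Real.log (Fa N (N - 1)) := by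
    obtain ⟨-, h5⟩ := h2 (N - 1) (by omega)
    have e3 : π * ((N - 1 : ℕ) : ℝ) / N = π - π / N := by
      rw [Nat.cast_sub hN]
      push_cast
      field_simp
    rw [e3, lob_pi_sub] at h5
    have h6 := (abs_le.1 h5).1
    have h7 : 0 ≤ lob (π / N) := EvenVol.LobIneq.lob_nonneg (by positivity) (by
      rw [div_le_div_iff₀ hNr (by norm_num)]
      nlinarith)
    have h8 : 0 ≤ (N : ℝ) / π * lob (π / N) := by positivity
    linarith
  have hW0 : |Real.log (W N 0 0)| ≤ (Real.log N + 1) + δ * N := by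
    have e1 : Real.log (W N 0 0) = -(Real.log (Fa N (N - 1)) / 2) := by
      unfold W
      rw [Fa_zero, zero_div, zero_mul, Real.exp_zero, mul_one, one_div, Real.log_inv,
        Real.log_sqrt hF1.le]
    rw [e1, abs_neg, abs_le]
    have hδN : 0 ≤ δ * N := by positivity
    constructor <;> linarith
  have b1 : ((e - d : ℤ) : ℝ) * Real.log (W N 0 0) ≤
      ((e - d).natAbs : ℝ) * ((Real.log N + 1) + δ * N) := by
    refine (le_abs_self _).trans ?_
    rw [abs_mul]
    have e2 : |((e - d : ℤ) : ℝ)| = ((e - d).natAbs : ℝ) := by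
      rw [Nat.cast_natAbs, Int.cast_abs]
    rw [e2]
    exact mul_le_mul_of_nonneg_left hW0 (by positivity)
  have b2 : Real.log ‖jones N (D.map MQ.piece) (Pool.Agent.W715.VC.rt N)‖ ≤
      ((D.length : ℝ) * (2 * Real.log N) + K + ((e - d).natAbs : ℝ) * (Real.log N + 1)) +
      N * ((D.map MQ.rt).sum / (2 * π) + δ * ((D.length : ℝ) + ((e - d).natAbs : ℝ))) := by
    refine hlog.trans ?_
    have e1 : ((D.length : ℝ) * (2 * Real.log N) + K + ((e - d).natAbs : ℝ) * (Real.log N + 1)) +
      N * ((D.map MQ.rt).sum / (2 * π) + δ * ((D.length : ℝ) + ((e - d).natAbs : ℝ))) =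
      (D.length * (2 * Real.log N) + K + N / (2 * π) * (D.map MQ.rt).sum + N * δ * D.length) +
      ((e - d).natAbs : ℝ) * ((Real.log N + 1) + δ * N) := by ring
    rw [e1]
    linarith
  have b3 := mul_le_mul_of_nonneg_left (div_le_div_of_nonneg_right b2 hNr.le)
    (show (0 : ℝ) ≤ 2 * π by positivity)
  refine b3.trans ?_
  have e2 : 2 * π * ((((D.length : ℝ) * (2 * Real.log N) + K +
      ((e - d).natAbs : ℝ) * (Real.log N + 1)) +
      N * ((D.map MQ.rt).sum / (2 * π) + δ * ((D.length : ℝ) + ((e - d).natAbs : ℝ)))) / N) =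
      2 * π * (((D.length : ℝ) * (2 * Real.log N) + K +
      ((e - d).natAbs : ℝ) * (Real.log N + 1)) / N) + (D.map MQ.rt).sum +
        2 * π * δ * ((D.length : ℝ) + ((e - d).natAbs : ℝ)) := by
    field_simp
    ring
  rw [e2]
  have b4 : 2 * π * δ * ((D.length : ℝ) + ((e - d).natAbs : ℝ)) ≤ ε / 2 := by
    have c1 : (D.length : ℝ) + ((e - d).natAbs : ℝ) ≤ T := by rw [hT]; linarith
    have c2 : 2 * π * δ * T = ε / 2 := by
      rw [hδd]
      field_simp
      ring
    rw [← c2]
    exact mul_le_mul_of_nonneg_left c1 (by positivity)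
  linarith

end Pool.Agent.K7.H9.VC
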