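import Pool.Agent.W402.VC.Max
import Pool.Agent.W709.QAT.Calc

/-!
An inequality for Lobachevsky's function.
-/

set_option autoImplicit false

namespace Pool.Agent.K7.H9.VC

open GapVol (lob)
open scoped Real

lemma sin_ge {θ : ℝ} (h0 : 0 ≤ θ) (h1 : θ ≤ π / 6) : 3 * θ / π ≤ Real.sin θ := by
  have hpi := Real.pi_pos
  have h6 : 6 * θ / π ≤ 1 := by
    rw [div_le_one hpi]
    linarith
  have hcc := (strictConcaveOn_sin_Icc.concaveOn).2
  have m1 : (0 : ℝ) ∈ Set.Icc (0 : ℝ) π := ⟨le_rfl, hpi.le⟩
  have m2 : π / 6 ∈ Set.Icc (0 : ℝ) π := ⟨by positivity, by linarith⟩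
  have hc := hcc m1 m2 (show (0 : ℝ) ≤ 1 - 6 * θ / π by linarith)
    (show (0 : ℝ) ≤ 6 * θ / π by positivity) (by ring)
  simp only [smul_eq_mul, mul_zero, Real.sin_zero, zero_add, Real.sin_pi_div_six] at hc
  have e : 6 * θ / π * (π / 6) = θ := by field_simp
  rw [e] at hc
  have e2 : 6 * θ / π * (1 / 2) = 3 * θ / π := by ring
  rw [e2] at hc
  exact hc

/-- a tangent bound -/
lemma lob_le_small {θ : ℝ} (h0 : 0 < θ) (h1 : θ ≤ π / 6) :
    lob θ ≤ θ * (1 - Real.log (6 * θ / π)) := by
  have hpi := Real.pi_pos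
  set D : ℝ → ℝ := fun t => t - t * Real.log (6 / π) - t * Real.log t - lob t with hD
  have hcont : ContinuousOn D (Set.Icc 0 (π / 6)) := by
    have h2 : Continuous D :=
      ((continuous_id.sub (continuous_id.mul continuous_const)).sub
        Real.continuous_mul_log).sub GapVol.lob_cont
    exact h2.continuousOn
  have hder : ∀ x ∈ interior (Set.Icc (0 : ℝ) (π / 6)), HasDerivAt D
      (1 - Real.log (6 / π) - (Real.log x + 1) - (-Real.log (2 * Real.sin x))) x := by
    intro x hx
    rw [interior_Icc] at hx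
    have hx0 : 0 < x := hx.1
    have a1 : HasDerivAt (fun t : ℝ => t - t * Real.log (6 / π)) (1 - Real.log (6 / π)) x := by
      have := (hasDerivAt_id' x).sub ((hasDerivAt_id' x).mul_const (Real.log (6 / π)))
      rw [one_mul] at this
      exact this
    have a2 : HasDerivAt (fun t : ℝ => t * Real.log t) (Real.log x + 1) x :=
      Real.hasDerivAt_mul_log hx0.ne'
    have a3 := Pool.Agent.W402.VC.lob_hasDeriv hx0 (by linarith [hx.2] : x < π)
    exact (a1.sub a2).sub a3
  have hmono : MonotoneOn D (Set.Icc 0 (π / 6)) := by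
    refine monotoneOn_of_deriv_nonneg (convex_Icc _ _) hcont ?_ ?_
    · intro x hx
      exact (hder x hx).differentiableAt.differentiableWithinAt
    · intro x hx
      rw [(hder x hx).deriv]
      rw [interior_Icc] at hx
      have hx0 : 0 < x := hx.1
      have hs := sin_ge hx0.le hx.2.le
      have h3 : Real.log (6 / π) + Real.log x ≤ Real.log (2 * Real.sin x) := by
        rw [← Real.log_mul (by positivity) hx0.ne']
        apply Real.log_le_log (by positivity)
        have : 6 / π * x = 2 * (3 * x / π) := by ring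
        rw [this]
        linarith
      linarith
  have h4 := hmono (Set.left_mem_Icc.2 (by positivity)) ⟨h0.le, h1⟩ h0.le
  have e0 : D 0 = 0 := by
    simp [hD, GapVol.lob_zero]
  rw [e0] at h4
  have e1 : Real.log (6 * θ / π) = Real.log (6 / π) + Real.log θ := by
    rw [← Real.log_mul (by positivity) h0.ne']
    congr 1
    ring
  rw [e1]
  have : D θ = θ - θ * Real.log (6 / π) - θ * Real.log θ - lob θ := rfl
  rw [this] at h4
  linarith

lemma lob_exp_small {θ l : ℝ} (h0 : 0 < θ) (h1 : θ ≤ π / 6) :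
    lob θ - l * θ ≤ π / 6 * Real.exp (-l) := by
  have hpi := Real.pi_pos
  have h2 := lob_le_small h0 h1
  set u : ℝ := 6 * θ / π with hu
  have hu0 : 0 < u := by positivity
  have h3 := Real.log_le_sub_one_of_pos (x := Real.exp (-l) / u) (by positivity)
  rw [Real.log_div (Real.exp_pos _).ne' hu0.ne', Real.log_exp] at h3
  have h4 : u * (1 - Real.log u - l) ≤ Real.exp (-l) := by
    have := mul_le_mul_of_nonneg_left (show 1 - Real.log u - l ≤ Real.exp (-l) / u by linarith)
      hu0.le
    rwa [mul_div_cancel₀ _ hu0.ne'] at this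
  have e : θ = π / 6 * u := by rw [hu]; field_simp
  calc lob θ - l * θ ≤ θ * (1 - Real.log u) - l * θ := by linarith
    _ = π / 6 * (u * (1 - Real.log u - l)) := by rw [e]; ring
    _ ≤ π / 6 * Real.exp (-l) := mul_le_mul_of_nonneg_left h4 (by positivity)

/-- **the maximum of `Λ(θ) - λ θ`** -/
theorem lob_exp {θ l : ℝ} (hl : 0 ≤ l) (h0 : 0 ≤ θ) :
    lob θ - l * θ ≤ π / 6 * Real.exp (-l) := by
  have hpi := Real.pi_pos
  rcases h0.eq_or_lt with h | h
  · rw [← h, GapVol.lob_zero, mul_zero, sub_zero]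
    positivity
  · rcases le_total θ (π / 6) with h1 | h1
    · exact lob_exp_small h h1
    · have h2 := lob_exp_small (θ := π / 6) (l := l) (by positivity) le_rfl
      have h3 := Pool.Agent.W709.QAT.lob_max θ
      nlinarith

end Pool.Agent.K7.H9.VC
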