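import Pool.Agent.W709.QAT.One
import Pool.Agent.W28.QAT.SS
import Pool.Agent.K7.H9.VC.Lob

/-!
# Bridges and the growth of the Kashaev invariant

A gauge transformation of the state sum.  Every strand carries a mark: `1` on an overpass, `-1` on an
underpass, `0` elsewhere; the state with the label `x` on a strand with mark `e` is weighted with
`W x ^ e`.  The weights are invariant at cups and caps, and a crossing of an overpass with an underpass
has the weighted entries `e^{-λ n} / |{n}!|`.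
-/

set_option autoImplicit false

namespace Pool.Agent.K7.H9.VC

open Finset Filter Topology Pool.Agent.H550R3.Jones Pool.Agent.W715.VC Pool.Agent.W709.QAT
open Pool.Agent.W28.QAT (sum_bound norm_cup_le norm_cap_le wt wt_pos rate_nonneg brf_refl)
open GapVol (lob)
open scoped Real

variable {N : ℕ} {l : ℝ}

lemma Fa_pos {k : ℕ} (hk : k < N) : 0 < Fa N k := by
  unfold Fa
  exact norm_pos_iff.2 (Pool.Agent.H927R2.J.SanYB.brf_ne (adm N) hk)

lemma Fa_zero (N : ℕ) : Fa N 0 = 1 := by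
  unfold Fa
  simp [brf]

lemma Fa_refl {k : ℕ} (hk : k < N) : Fa N (N - 1 - k) * Fa N k = Fa N (N - 1) := by
  unfold Fa
  rw [← norm_mul, brf_refl (by omega) k hk]

/-- the weight of the label `x` on an overpass -/
noncomputable def W (N : ℕ) (l : ℝ) (x : ℕ) : ℝ :=
  Fa N x / √(Fa N (N - 1)) * Real.exp (l / 2 * (x - ((N : ℝ) - 1) / 2))

lemma W_pos {x : ℕ} (hx : x < N) : 0 < W N l x := by
  have h1 := Fa_pos hx
  have h2 : 0 < Fa N (N - 1) := Fa_pos (by omega)
  unfold W
  positivity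

lemma W_refl {x : ℕ} (hx : x < N) : W N l x * W N l (N - 1 - x) = 1 := by
  have h1 := Fa_pos hx
  have h2 : 0 < Fa N (N - 1) := Fa_pos (by omega)
  have h3 := Fa_refl hx
  have hN : (((N - 1 - x : ℕ) : ℕ) : ℝ) = (N : ℝ) - 1 - x := by
    rw [Nat.cast_sub (by omega), Nat.cast_sub (by omega)]
    simp
  unfold W
  rw [hN]
  have e : Fa N x / √(Fa N (N - 1)) * Real.exp (l / 2 * (x - ((N : ℝ) - 1) / 2)) *
      (Fa N (N - 1 - x) / √(Fa N (N - 1)) *
        Real.exp (l / 2 * ((N : ℝ) - 1 - x - ((N : ℝ) - 1) / 2))) =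
      (Fa N (N - 1 - x) * Fa N x) / (√(Fa N (N - 1)) * √(Fa N (N - 1))) *
        (Real.exp (l / 2 * (x - ((N : ℝ) - 1) / 2)) *
          Real.exp (l / 2 * ((N : ℝ) - 1 - x - ((N : ℝ) - 1) / 2))) := by ring
  rw [e, ← Real.exp_add, Real.mul_self_sqrt h2.le, h3, div_self h2.ne']
  have e2 : l / 2 * (x - ((N : ℝ) - 1) / 2) + l / 2 * ((N : ℝ) - 1 - x - ((N : ℝ) - 1) / 2) = 0 := by
    ring
  rw [e2, Real.exp_zero, one_mul]

/-- the weight of a state -/
noncomputable def wgt (N : ℕ) (l : ℝ) : List ℤ → List (Fin N) → ℝ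
  | e :: ms, x :: s => W N l x ^ e * wgt N l ms s
  | _, _ => 1

lemma wgt_pos (ms : List ℤ) (s : List (Fin N)) : 0 < wgt N l ms s := by
  induction ms generalizing s with
  | nil => simp [wgt]
  | cons e ms ih =>
    cases s with
    | nil => simp [wgt]
    | cons x s =>
      rw [wgt]
      have := W_pos (l := l) x.2
      have := ih s
      positivity

lemma wgt_append (m1 m2 : List ℤ) (s1 s2 : List (Fin N)) (h : s1.length = m1.length) :
    wgt N l (m1 ++ m2) (s1 ++ s2) = wgt N l m1 s1 * wgt N l m2 s2 := by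
  induction m1 generalizing s1 with
  | nil =>
    have : s1 = [] := List.length_eq_zero_iff.1 (by simpa using h)
    subst this
    simp [wgt]
  | cons e m1 ih =>
    cases s1 with
    | nil => simp at h
    | cons x s1 =>
      have h' : s1.length = m1.length := by simpa using h
      rw [List.cons_append, List.cons_append, wgt, wgt, ih s1 h']
      ring

/-- the weighted bound of a vector -/
def Bd (N : ℕ) (l C : ℝ) (ms : List ℤ) (f : List (Fin N) → ℂ) : Prop :=
  ∀ s : List (Fin N), s.length = ms.length → ‖f s‖ * wgt N l ms s ≤ C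

lemma split2 {α : Type*} {s : List α} {i k : ℕ} (h : s.length = i + 2 + k) :
    ∃ (t : List α) (a b : α) (r : List α), s = t ++ a :: b :: r ∧ t.length = i ∧ r.length = k ∧
      s.drop i = a :: b :: r ∧ s.take i = t := by
  have h1 : (s.drop i).length = k + 2 := by rw [List.length_drop]; omega
  rcases hd : s.drop i with _ | ⟨a, _ | ⟨b, r⟩⟩
  · rw [hd] at h1; simp at h1
  · rw [hd] at h1; simp at h1
  · refine ⟨s.take i, a, b, r, ?_, ?_, ?_, rfl, rfl⟩
    · conv_lhs => rw [← List.take_append_drop i s, hd]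
    · rw [List.length_take]; omega
    · rw [hd] at h1; simpa using h1

/-! ### cups and caps -/

lemma bd_cup {C : ℝ} {m1 m2 : List ℤ} {f : List (Fin N) → ℂ} (e : ℤ)
    (hC : 0 ≤ C) (hf : Bd N l C (m1 ++ m2) f) :
    Bd N l C (m1 ++ e :: e :: m2) ((Piece.cup m1.length).act N (rt N) f) := by
  intro s hs
  have hs' : s.length = m1.length + 2 + m2.length := by
    rw [hs, List.length_append, List.length_cons, List.length_cons]; omega
  obtain ⟨t, a, b, r, rfl, ht, hr, hd, htk⟩ := split2 hs'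
  have e1 : (Piece.cup m1.length).act N (rt N) f (t ++ a :: b :: r) =
      Pool.Agent.W709.QAT.cup N (rt N) (a, b) * f (t ++ r) := by
    simp only [Piece.act, hd, htk]
  rw [e1, norm_mul, wgt_append _ _ _ _ ht, wgt, wgt]
  by_cases hab : (a : ℕ) + b = N - 1
  · have hb : (b : ℕ) = N - 1 - a := by omega
    have hW : W N l a ^ e * W N l b ^ e = 1 := by
      rw [← mul_zpow, hb, W_refl a.2, _root_.one_zpow]
    have h1 := hf (t ++ r) (by rw [List.length_append, List.length_append, ht, hr])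
    rw [wgt_append _ _ _ _ ht] at h1
    have h2 : ‖Pool.Agent.W709.QAT.cup N (rt N) (a, b)‖ * ‖f (t ++ r)‖ *
        (wgt N l m1 t * (W N l a ^ e * (W N l b ^ e * wgt N l m2 r))) =
        ‖Pool.Agent.W709.QAT.cup N (rt N) (a, b)‖ *
          ((W N l a ^ e * W N l b ^ e) * (‖f (t ++ r)‖ * (wgt N l m1 t * wgt N l m2 r))) := by ring
    rw [h2, hW, one_mul]
    have h3 := norm_cup_le (N := N) (a, b)
    have h4 : 0 ≤ ‖f (t ++ r)‖ * (wgt N l m1 t * wgt N l m2 r) :=
      mul_nonneg (norm_nonneg _) (mul_pos (wgt_pos _ _) (wgt_pos _ _)).le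
    calc _ ≤ 1 * (‖f (t ++ r)‖ * (wgt N l m1 t * wgt N l m2 r)) :=
          mul_le_mul_of_nonneg_right h3 h4
      _ ≤ C := by rw [one_mul]; exact h1
  · have h0 : Pool.Agent.W709.QAT.cup N (rt N) (a, b) = 0 := by
      unfold Pool.Agent.W709.QAT.cup
      rw [if_neg hab]
    rw [h0, norm_zero, zero_mul, zero_mul]
    exact hC

lemma bd_cap {C : ℝ} {m1 m2 : List ℤ} {f : List (Fin N) → ℂ} (e : ℤ)
    (hC : 0 ≤ C) (hf : Bd N l C (m1 ++ e :: e :: m2) f) :
    Bd N l ((N : ℝ) ^ 2 * C) (m1 ++ m2) ((Piece.cap m1.length).act N (rt N) f) := by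
  intro s hs
  have e0 : (Piece.cap m1.length).act N (rt N) f s =
      ∑ p : Fin N × Fin N, Pool.Agent.W709.QAT.cap N (rt N) p *
        f (s.take m1.length ++ p.1 :: p.2 :: s.drop m1.length) := rfl
  set t := s.take m1.length with ht
  set r := s.drop m1.length with hr
  have hst : s = t ++ r := (List.take_append_drop _ _).symm
  have htl : t.length = m1.length := by
    rw [ht, List.length_take]; rw [List.length_append] at hs; omega
  have hrl : r.length = m2.length := by
    rw [hr, List.length_drop]; rw [List.length_append] at hs; omega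
  have hw : wgt N l (m1 ++ m2) s = wgt N l m1 t * wgt N l m2 r := by
    rw [hst]; exact wgt_append _ _ _ _ htl
  rw [e0, hw]
  have hpos : 0 < wgt N l m1 t * wgt N l m2 r := mul_pos (wgt_pos _ _) (wgt_pos _ _)
  rw [← le_div_iff₀ hpos, mul_div_assoc]
  apply sum_bound
  intro p
  rw [le_div_iff₀ hpos, norm_mul]
  by_cases hp : (p.1 : ℕ) + p.2 = N - 1
  · have hb : (p.2 : ℕ) = N - 1 - p.1 := by omega
    have hW : W N l p.1 ^ e * W N l p.2 ^ e = 1 := by
      rw [← mul_zpow, hb, W_refl p.1.2, _root_.one_zpow]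
    have h1 := hf (t ++ p.1 :: p.2 :: r) (by
      simp only [List.length_append, List.length_cons, htl, hrl])
    rw [wgt_append _ _ _ _ htl, wgt, wgt] at h1
    have h2 : ‖f (t ++ p.1 :: p.2 :: r)‖ *
        (wgt N l m1 t * (W N l p.1 ^ e * (W N l p.2 ^ e * wgt N l m2 r))) =
        (W N l p.1 ^ e * W N l p.2 ^ e) *
          (‖f (t ++ p.1 :: p.2 :: r)‖ * (wgt N l m1 t * wgt N l m2 r)) := by ring
    rw [h2, hW, one_mul] at h1
    have h3 := norm_cap_le (N := N) p
    have h4 : 0 ≤ ‖f (t ++ p.1 :: p.2 :: r)‖ * (wgt N l m1 t * wgt N l m2 r) :=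
      mul_nonneg (norm_nonneg _) hpos.le
    rw [mul_assoc]
    calc _ ≤ 1 * (‖f (t ++ p.1 :: p.2 :: r)‖ * (wgt N l m1 t * wgt N l m2 r)) :=
          mul_le_mul_of_nonneg_right h3 h4
      _ ≤ C := by rw [one_mul]; exact h1
  · have h0 : Pool.Agent.W709.QAT.cap N (rt N) p = 0 := by
      unfold Pool.Agent.W709.QAT.cap
      rw [if_neg hp]
    rw [h0, norm_zero, zero_mul, zero_mul]
    exact hC

/-! ### crossings -/

/-- the entries of a crossing are bounded, in the weights -/
def CrB (N : ℕ) (l E : ℝ) : Prop := ∀ n : ℕ, n < N → Real.exp (-(l * n)) / Fa N n ≤ E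

/-- general two-strand pieces: a bound of the weighted entries -/
lemma bd_two {C E : ℝ} {m1 m2 : List ℤ} {f : List (Fin N) → ℂ} {e1 e2 d1 d2 : ℤ} {m : ℕ} {σ : Bool}
    (hE : 0 ≤ E) (hC : 0 ≤ C) (hf : Bd N l C (m1 ++ e1 :: e2 :: m2) f)
    (hent : ∀ a b x y : Fin N,
      ‖((if σ then crossP N (rt N) else crossN N (rt N)) ^ m) (a, b) (x, y)‖ *
        (W N l a ^ d1 * W N l b ^ d2) ≤ E * (W N l x ^ e1 * W N l y ^ e2)) :
    Bd N l ((N : ℝ) ^ 2 * (E * C)) (m1 ++ d1 :: d2 :: m2)
      ((Piece.twist m1.length σ m).act N (rt N) f) := by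
  intro s hs
  have hs' : s.length = m1.length + 2 + m2.length := by
    rw [hs, List.length_append, List.length_cons, List.length_cons]; omega
  obtain ⟨t, a, b, r, rfl, ht, hr, hd, htk⟩ := split2 hs'
  have e1' : (Piece.twist m1.length σ m).act N (rt N) f (t ++ a :: b :: r) =
      ∑ p : Fin N × Fin N, ((if σ then crossP N (rt N) else crossN N (rt N)) ^ m) (a, b) p *
        f (t ++ p.1 :: p.2 :: r) := by
    simp only [Piece.act, hd, htk]
  rw [e1', wgt_append _ _ _ _ ht, wgt, wgt]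
  have hw1 := wgt_pos (l := l) m1 t
  have hw2 := wgt_pos (l := l) m2 r
  have hWa : 0 < W N l a ^ d1 := zpow_pos (W_pos a.2) _
  have hWb : 0 < W N l b ^ d2 := zpow_pos (W_pos b.2) _
  have hpos : 0 < wgt N l m1 t * (W N l a ^ d1 * (W N l b ^ d2 * wgt N l m2 r)) := by positivity
  rw [← le_div_iff₀ hpos, mul_div_assoc]
  apply sum_bound
  intro p
  rw [le_div_iff₀ hpos, norm_mul]
  have h1 := hf (t ++ p.1 :: p.2 :: r) (by
    simp only [List.length_append, List.length_cons, ht, hr])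
  rw [wgt_append _ _ _ _ ht, wgt, wgt] at h1
  have h2 := hent a b p.1 p.2
  have hWx : 0 < W N l p.1 ^ e1 := zpow_pos (W_pos p.1.2) _
  have hWy : 0 < W N l p.2 ^ e2 := zpow_pos (W_pos p.2.2) _
  have h3 : ‖((if σ then crossP N (rt N) else crossN N (rt N)) ^ m) (a, b) p‖ *
      ‖f (t ++ p.1 :: p.2 :: r)‖ *
      (wgt N l m1 t * (W N l a ^ d1 * (W N l b ^ d2 * wgt N l m2 r))) =
      (‖((if σ then crossP N (rt N) else crossN N (rt N)) ^ m) (a, b) p‖ *
        (W N l a ^ d1 * W N l b ^ d2)) *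
      (‖f (t ++ p.1 :: p.2 :: r)‖ * (wgt N l m1 t * wgt N l m2 r)) := by ring
  rw [h3]
  have h4 : 0 ≤ ‖f (t ++ p.1 :: p.2 :: r)‖ * (wgt N l m1 t * wgt N l m2 r) := by positivity
  calc _ ≤ (E * (W N l p.1 ^ e1 * W N l p.2 ^ e2)) *
        (‖f (t ++ p.1 :: p.2 :: r)‖ * (wgt N l m1 t * wgt N l m2 r)) :=
        mul_le_mul_of_nonneg_right h2 h4
    _ = E * (‖f (t ++ p.1 :: p.2 :: r)‖ *
        (wgt N l m1 t * (W N l p.1 ^ e1 * (W N l p.2 ^ e2 * wgt N l m2 r)))) := by ring
    _ ≤ E * C := mul_le_mul_of_nonneg_left h1 hE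

lemma pp_zero {p q : Fin N × Fin N} (h : PP N p q ≠ 0) :
    (p.1 : ℕ) + p.2 = q.1 + q.2 ∧ (q.2 : ℕ) ≤ p.1 := by
  by_contra hc
  apply h
  unfold PP crossP
  rw [if_neg hc]

/-- the ratio of the weights along an overpass and an underpass -/
lemma W_ratio {a b x y n : ℕ} (ha : a < N) (hb : b < N) (hx : x < N) (hy : y < N)
    (h1 : a = y + n) (h2 : x = b + n) :
    Fa N a / (Fa N y * Fa N n) * (Fa N x / Fa N b) * (W N l b * W N l y) =
      Real.exp (-(l * n)) / Fa N n * (W N l x * W N l a) := by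
  have p1 := Fa_pos ha
  have p2 := Fa_pos hb
  have p3 := Fa_pos hx
  have p4 := Fa_pos hy
  have p5 : 0 < Fa N n := Fa_pos (by omega)
  have h2' : 0 < Fa N (N - 1) := Fa_pos (by omega)
  have h3 : 0 < √(Fa N (N - 1)) := Real.sqrt_pos.2 h2'
  unfold W
  have e1 : Real.exp (l / 2 * (b - ((N : ℝ) - 1) / 2)) * Real.exp (l / 2 * (y - ((N : ℝ) - 1) / 2)) =
      Real.exp (-(l * n)) * (Real.exp (l / 2 * (x - ((N : ℝ) - 1) / 2)) *
        Real.exp (l / 2 * (a - ((N : ℝ) - 1) / 2))) := by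
    rw [← Real.exp_add, ← Real.exp_add, ← Real.exp_add, h1, h2]
    congr 1
    push_cast
    ring
  have e2 : Fa N a / (Fa N y * Fa N n) * (Fa N x / Fa N b) *
      (Fa N b / √(Fa N (N - 1)) * Real.exp (l / 2 * (b - ((N : ℝ) - 1) / 2)) *
        (Fa N y / √(Fa N (N - 1)) * Real.exp (l / 2 * (y - ((N : ℝ) - 1) / 2)))) =
      Fa N a * Fa N x / (Fa N n * √(Fa N (N - 1)) * √(Fa N (N - 1))) *
        (Real.exp (l / 2 * (b - ((N : ℝ) - 1) / 2)) *
          Real.exp (l / 2 * (y - ((N : ℝ) - 1) / 2))) := by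
    field_simp
  rw [e2, e1]
  field_simp

lemma cross_ent {E : ℝ} (hE : CrB N l E) (hE0 : 0 ≤ E) (a b x y : Fin N) :
    ‖PP N (a, b) (x, y)‖ * (W N l a ^ (-1 : ℤ) * W N l b ^ (1 : ℤ)) ≤
      E * (W N l x ^ (1 : ℤ) * W N l y ^ (-1 : ℤ)) := by
  have wa := W_pos (l := l) a.2
  have wb := W_pos (l := l) b.2
  have wx := W_pos (l := l) x.2
  have wy := W_pos (l := l) y.2
  by_cases h : PP N (a, b) (x, y) = 0
  · rw [h, norm_zero, zero_mul]
    positivity
  · obtain ⟨e1, e2⟩ := pp_zero h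
    dsimp only at e1 e2
    rw [norm_PP (a, b) (x, y) e1 e2]
    dsimp only
    set n : ℕ := (a : ℕ) - y with hn
    have h1 : (a : ℕ) = y + n := by omega
    have h2 : (x : ℕ) = b + n := by omega
    have h3 := W_ratio (l := l) a.2 b.2 x.2 y.2 h1 h2
    have h4 := hE n (by have := a.2; omega)
    rw [zpow_neg_one, zpow_one, zpow_one, zpow_neg_one]
    have e3 : Fa N a / (Fa N y * Fa N n) * (Fa N x / Fa N b) * ((W N l a)⁻¹ * W N l b) =
        Fa N a / (Fa N y * Fa N n) * (Fa N x / Fa N b) * (W N l b * W N l y) *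
          ((W N l a)⁻¹ * (W N l y)⁻¹) := by
      field_simp
    rw [e3, h3]
    have e4 : Real.exp (-(l * n)) / Fa N n * (W N l x * W N l a) * ((W N l a)⁻¹ * (W N l y)⁻¹) =
        Real.exp (-(l * n)) / Fa N n * (W N l x * (W N l y)⁻¹) := by
      field_simp
    rw [e4]
    exact mul_le_mul_of_nonneg_right h4 (by positivity)

lemma norm_QQ' (hN : 0 < N) (p q : Fin N × Fin N) :
    ‖QQ N p q‖ = ‖PP N (q.2, q.1) (p.2, p.1)‖ := by
  have h := congrFun (congrFun (sh_PP (N := N) (by omega)) p) q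
  rw [← h]
  unfold sh
  rw [RCLike.norm_conj]

lemma cross_ent' {E : ℝ} (hE : CrB N l E) (hE0 : 0 ≤ E) (a b x y : Fin N) :
    ‖QQ N (a, b) (x, y)‖ * (W N l a ^ (1 : ℤ) * W N l b ^ (-1 : ℤ)) ≤
      E * (W N l x ^ (-1 : ℤ) * W N l y ^ (1 : ℤ)) := by
  have wa := W_pos (l := l) a.2
  have wb := W_pos (l := l) b.2
  have wx := W_pos (l := l) x.2
  have wy := W_pos (l := l) y.2
  have h := cross_ent hE hE0 y x b a
  rw [norm_QQ' (Nat.pos_of_ne_zero (by have := a.2; omega))]
  dsimp only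
  rw [zpow_neg_one, zpow_one] at h ⊢
  rw [zpow_one, zpow_neg_one] at h ⊢
  have h2 := mul_le_mul_of_nonneg_right h
    (show 0 ≤ W N l y * (W N l x)⁻¹ * (W N l a * (W N l b)⁻¹) by positivity)
  refine le_trans (le_of_eq ?_) (h2.trans (le_of_eq ?_))
  · field_simp
  · field_simp

lemma bd_cross {C E : ℝ} {m1 m2 : List ℤ} {f : List (Fin N) → ℂ} (hE0 : 0 ≤ E)
    (hE : CrB N l E) (hC : 0 ≤ C) (hf : Bd N l C (m1 ++ 1 :: -1 :: m2) f) :
    Bd N l ((N : ℝ) ^ 2 * (E * C)) (m1 ++ -1 :: 1 :: m2)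
      ((Piece.twist m1.length true 1).act N (rt N) f) := by
  refine bd_two hE0 hC hf fun a b x y => ?_
  rw [if_pos rfl, pow_one]
  exact cross_ent hE hE0 a b x y

lemma bd_cross' {C E : ℝ} {m1 m2 : List ℤ} {f : List (Fin N) → ℂ} (hE0 : 0 ≤ E)
    (hE : CrB N l E) (hC : 0 ≤ C) (hf : Bd N l C (m1 ++ -1 :: 1 :: m2) f) :
    Bd N l ((N : ℝ) ^ 2 * (E * C)) (m1 ++ 1 :: -1 :: m2)
      ((Piece.twist m1.length false 1).act N (rt N) f) := by
  refine bd_two hE0 hC hf fun a b x y => ?_
  rw [if_neg (by simp), pow_one]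
  exact cross_ent' hE hE0 a b x y

lemma bd_twist {C ε : ℝ} {m1 m2 : List ℤ} {f : List (Fin N) → ℂ} {m : ℕ} {σ : Bool}
    (hTW : ∀ m : ℕ, ∀ p q : Fin N × Fin N, ‖(PP N ^ m) p q‖ ≤ wt N ε m ∧
      ‖(QQ N ^ m) p q‖ ≤ wt N ε m) (hC : 0 ≤ C) (hf : Bd N l C (m1 ++ 0 :: 0 :: m2) f) :
    Bd N l ((N : ℝ) ^ 2 * (wt N ε m * C)) (m1 ++ 0 :: 0 :: m2)
      ((Piece.twist m1.length σ m).act N (rt N) f) := by
  refine bd_two (wt_pos N ε m).le hC hf fun a b x y => ?_
  simp only [zpow_zero, mul_one]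
  cases σ
  · exact (hTW m (a, b) (x, y)).2
  · exact (hTW m (a, b) (x, y)).1

/-! ### changes of the marks -/

/-- a bound of the weights -/
def HB (N : ℕ) (l H : ℝ) : Prop := ∀ x : ℕ, x < N → W N l x ≤ H ∧ (W N l x)⁻¹ ≤ H

lemma hb_of {E : ℝ} (hE : CrB N (l / 2) E) :
    HB N l (√(Fa N (N - 1)) * Real.exp (l * ((N : ℝ) - 1) / 4) * E) := by
  have key : ∀ x : ℕ, x < N →
      (W N l x)⁻¹ ≤ √(Fa N (N - 1)) * Real.exp (l * ((N : ℝ) - 1) / 4) * E := by
    intro x hx
    have h1 := Fa_pos hx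
    have h2 : 0 < Fa N (N - 1) := Fa_pos (by omega)
    have h3 : 0 < √(Fa N (N - 1)) := Real.sqrt_pos.2 h2
    have e : (W N l x)⁻¹ = √(Fa N (N - 1)) * Real.exp (l * ((N : ℝ) - 1) / 4) *
        (Real.exp (-(l / 2 * x)) / Fa N x) := by
      unfold W
      have e1 : l / 2 * (x - ((N : ℝ) - 1) / 2) = -(l * ((N : ℝ) - 1) / 4) - (-(l / 2 * x)) := by
        ring
      rw [e1, Real.exp_sub, Real.exp_neg (l * ((N : ℝ) - 1) / 4)]
      field_simp
    rw [e]
    exact mul_le_mul_of_nonneg_left (hE x hx) (by positivity)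
  intro x hx
  refine ⟨?_, key x hx⟩
  have h1 := W_refl (l := l) hx
  have h2 := W_pos (l := l) (x := N - 1 - x) (N := N) (by omega)
  have h3 : W N l x = (W N l (N - 1 - x))⁻¹ := eq_inv_of_mul_eq_one_left h1
  rw [h3]
  exact key _ (by omega)

lemma bd_turn {C H : ℝ} {m1 m2 : List ℤ} {f : List (Fin N) → ℂ} {e d : ℤ} (hH : HB N l H)
    (hC : 0 ≤ C) (hed : (d - e).natAbs = 1) (hf : Bd N l C (m1 ++ e :: m2) f) :
    Bd N l (H * C) (m1 ++ d :: m2) f := by
  intro s hs
  have h1 := hf s (by rw [hs, List.length_append, List.length_append]; rfl)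
  have hl : s.length = m1.length + 1 + m2.length := by
    rw [hs, List.length_append, List.length_cons]; omega
  have hst : s = s.take m1.length ++ s.drop m1.length := (List.take_append_drop _ _).symm
  rcases hd : s.drop m1.length with _ | ⟨x, r⟩
  · have : (s.drop m1.length).length = m2.length + 1 := by rw [List.length_drop]; omega
    rw [hd] at this
    simp at this
  · have ht : (s.take m1.length).length = m1.length := by rw [List.length_take]; omega
    rw [hd] at hst
    rw [hst, wgt_append _ _ _ _ ht, wgt] at h1 ⊢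
    have hx := W_pos (l := l) x.2
    have hxx : W N l x ^ d ≤ H * W N l x ^ e := by
      have e1 : W N l x ^ d = W N l x ^ (d - e) * W N l x ^ e := by
        rw [← zpow_add₀ hx.ne']; congr 1; ring
      rw [e1]
      refine mul_le_mul_of_nonneg_right ?_ (zpow_pos hx _).le
      rcases Int.natAbs_eq (d - e) with h | h
      · rw [h, hed]
        simpa using (hH x x.2).1
      · rw [h, hed]
        simpa using (hH x x.2).2
    have hw1 := wgt_pos (l := l) m1 (s.take m1.length)
    have hw2 := wgt_pos (l := l) m2 r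
    have hH0 : 0 ≤ H := (hx.le).trans (hH x x.2).1
    calc _ ≤ ‖f (s.take m1.length ++ x :: r)‖ *
          (wgt N l m1 (s.take m1.length) * ((H * W N l x ^ e) * wgt N l m2 r)) := by
          gcongr
      _ = H * (‖f (s.take m1.length ++ x :: r)‖ *
          (wgt N l m1 (s.take m1.length) * (W N l x ^ e * wgt N l m2 r))) := by ring
      _ ≤ H * C := mul_le_mul_of_nonneg_left h1 hH0

/-! ### marked diagrams -/

/-- pieces of marked diagrams -/
inductive MP
  | cup (i : ℕ) (e : ℤ)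
  | cap (i : ℕ)
  | cross (i : ℕ) (σ : Bool)
  | twist (i : ℕ) (σ : Bool) (m : ℕ)
  | turn (i : ℕ) (d : ℤ)

/-- the piece without the mark -/
def MP.piece : MP → List Piece
  | .cup i _ => [.cup i]
  | .cap i => [.cap i]
  | .cross i σ => [.twist i σ 1]
  | .twist i σ m => [.twist i σ m]
  | .turn _ _ => []

/-- the marks above a piece, given the marks below -/
def MP.step : MP → List ℤ → Option (List ℤ)
  | .cup i e, ms => if i ≤ ms.length then some (ms.take i ++ e :: e :: ms.drop i) else none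
  | .cap i, ms => match ms.drop i with
      | a :: b :: r => if a = b then some (ms.take i ++ r) else none
      | _ => none
  | .cross i σ, ms => match ms.drop i with
      | a :: b :: r => if (σ = true ∧ a = 1 ∧ b = -1) ∨ (σ = false ∧ a = -1 ∧ b = 1) then
          some (ms.take i ++ b :: a :: r) else none
      | _ => none
  | .twist i _ _, ms => match ms.drop i with
      | a :: b :: _ => if a = 0 ∧ b = 0 then some ms else none
      | _ => none
  | .turn i d, ms => match ms.drop i with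
      | a :: r => if (d - a).natAbs = 1 then some (ms.take i ++ d :: r) else none
      | _ => none

/-- the cost of a piece -/
noncomputable def MP.cost (N : ℕ) (ε E H : ℝ) : MP → ℝ
  | .cross _ _ => (N : ℝ) ^ 2 * E
  | .twist _ _ m => (N : ℝ) ^ 2 * wt N ε m
  | .turn _ _ => (N : ℝ) ^ 2 * H
  | _ => (N : ℝ) ^ 2

lemma take_len {α : Type*} {s : List α} {i : ℕ} {a : α} {r : List α} (h : s.drop i = a :: r) :
    (s.take i).length = i ∧ s = s.take i ++ a :: r := by
  constructor
  · rw [List.length_take]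
    have : 0 < (s.drop i).length := by rw [h]; simp
    rw [List.length_drop] at this
    omega
  · conv_lhs => rw [← List.take_append_drop i s, h]

lemma step_bd {ε E H C : ℝ} (hN : 1 ≤ N)
    (hTW : ∀ m : ℕ, ∀ p q : Fin N × Fin N, ‖(PP N ^ m) p q‖ ≤ wt N ε m ∧
      ‖(QQ N ^ m) p q‖ ≤ wt N ε m) (hE0 : 0 ≤ E) (hE : CrB N l E) (hH0 : 0 ≤ H) (hH : HB N l H)
    (hC : 0 ≤ C) (P : MP) {ms ms' : List ℤ} (hs : P.step ms = some ms') {f : List (Fin N) → ℂ}
    (hf : Bd N l C ms f) :
    Bd N l (P.cost N ε E H * C) ms' (run N (rt N) P.piece f) := by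
  have hN1 : (1 : ℝ) ≤ (N : ℝ) ^ 2 := by
    have : (1 : ℝ) ≤ N := by exact_mod_cast hN
    nlinarith
  have mono : ∀ {C1 C2 : ℝ} {ms : List ℤ} {f : List (Fin N) → ℂ}, C1 ≤ C2 → Bd N l C1 ms f →
      Bd N l C2 ms f := fun h h1 s hs => (h1 s hs).trans h
  cases P with
  | cup i e =>
    simp only [MP.step] at hs
    split_ifs at hs with hi
    rw [Option.some.injEq] at hs
    subst hs
    have hl : (ms.take i).length = i := by rw [List.length_take]; omega
    rw [← List.take_append_drop i ms] at hf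
    have h := bd_cup e hC hf
    rw [hl] at h
    refine mono ?_ h
    show C ≤ (N : ℝ) ^ 2 * C
    nlinarith
  | cap i =>
    rcases hd : ms.drop i with _ | ⟨a, _ | ⟨b, r⟩⟩
    · simp [MP.step, hd] at hs
    · simp [MP.step, hd] at hs
    · simp only [MP.step, hd] at hs
      split_ifs at hs with hab
      rw [Option.some.injEq] at hs
      subst hs
      subst hab
      obtain ⟨hl, hms⟩ := take_len hd
      rw [hms] at hf
      have h := bd_cap a hC hf
      rw [hl] at h
      exact h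
  | cross i σ =>
    rcases hd : ms.drop i with _ | ⟨a, _ | ⟨b, r⟩⟩
    · simp [MP.step, hd] at hs
    · simp [MP.step, hd] at hs
    · simp only [MP.step, hd] at hs
      split_ifs at hs with hab
      rw [Option.some.injEq] at hs
      subst hs
      obtain ⟨hl, hms⟩ := take_len hd
      rw [hms] at hf
      rcases hab with ⟨rfl, rfl, rfl⟩ | ⟨rfl, rfl, rfl⟩
      · have h := bd_cross hE0 hE hC hf
        rw [hl] at h
        refine mono (le_of_eq ?_) h
        show _ = (N : ℝ) ^ 2 * E * C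
        ring
      · have h := bd_cross' hE0 hE hC hf
        rw [hl] at h
        refine mono (le_of_eq ?_) h
        show _ = (N : ℝ) ^ 2 * E * C
        ring
  | twist i σ m =>
    rcases hd : ms.drop i with _ | ⟨a, _ | ⟨b, r⟩⟩
    · simp [MP.step, hd] at hs
    · simp [MP.step, hd] at hs
    · simp only [MP.step, hd] at hs
      split_ifs at hs with hab
      rw [Option.some.injEq] at hs
      subst hs
      obtain ⟨rfl, rfl⟩ := hab
      obtain ⟨hl, hms⟩ := take_len hd
      rw [hms] at hf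
      have h := bd_twist (σ := σ) (m := m) hTW hC hf
      rw [hl, ← hms] at h
      refine mono (le_of_eq ?_) h
      show _ = (N : ℝ) ^ 2 * wt N ε m * C
      ring
  | turn i d =>
    rcases hd : ms.drop i with _ | ⟨a, r⟩
    · simp [MP.step, hd] at hs
    · simp only [MP.step, hd] at hs
      split_ifs at hs with hab
      rw [Option.some.injEq] at hs
      subst hs
      obtain ⟨hl, hms⟩ := take_len hd
      rw [hms] at hf
      have h := bd_turn (d := d) hH hC hab hf
      refine mono ?_ h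
      show H * C ≤ (N : ℝ) ^ 2 * H * C
      have := mul_nonneg hH0 hC
      nlinarith

/-- the marks above a diagram -/
def steps (D : List MP) (ms : List ℤ) : Option (List ℤ) := D.foldl (fun o P => o.bind P.step) (some ms)

lemma foldl_none (D : List MP) : D.foldl (fun o P => o.bind P.step) (none : Option (List ℤ)) = none := by
  induction D with
  | nil => rfl
  | cons P D ih => exact ih

lemma cost_nonneg {ε E H : ℝ} (hE0 : 0 ≤ E) (hH0 : 0 ≤ H) (P : MP) : 0 ≤ P.cost N ε E H := by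
  have := fun m => wt_pos N ε m
  cases P with
  | cup i e => unfold MP.cost; positivity
  | cap i => unfold MP.cost; positivity
  | cross i σ => unfold MP.cost; positivity
  | twist i σ m => unfold MP.cost; have := this m; positivity
  | turn i d => unfold MP.cost; positivity

theorem run_bd {ε E H : ℝ} (hN : 1 ≤ N)
    (hTW : ∀ m : ℕ, ∀ p q : Fin N × Fin N, ‖(PP N ^ m) p q‖ ≤ wt N ε m ∧
      ‖(QQ N ^ m) p q‖ ≤ wt N ε m) (hE0 : 0 ≤ E) (hE : CrB N l E) (hH0 : 0 ≤ H) (hH : HB N l H)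
    (D : List MP) : ∀ (C : ℝ), 0 ≤ C → ∀ {ms ms' : List ℤ}, steps D ms = some ms' →
    ∀ {f : List (Fin N) → ℂ}, Bd N l C ms f →
    Bd N l ((D.map (MP.cost N ε E H)).prod * C) ms' (run N (rt N) (D.flatMap MP.piece) f) := by
  induction D with
  | nil =>
    intro C hC ms ms' hs f hf
    have : ms = ms' := by simpa [steps] using hs
    subst this
    simpa [run] using hf
  | cons P D ih =>
    intro C hC ms ms' hs f hf
    have hs' : D.foldl (fun o P => o.bind P.step) (P.step ms) = some ms' := hs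
    rcases hP : P.step ms with _ | ms1
    · rw [hP, foldl_none] at hs'
      exact absurd hs' (by simp)
    · rw [hP] at hs'
      have h1 := step_bd hN hTW hE0 hE hH0 hH hC P hP hf
      have h2 := ih (P.cost N ε E H * C) (mul_nonneg (cost_nonneg hE0 hH0 P) hC) hs' h1
      have e : (P :: D).flatMap MP.piece = P.piece ++ D.flatMap MP.piece := rfl
      rw [e]
      have e2 : run N (rt N) (P.piece ++ D.flatMap MP.piece) f =
          run N (rt N) (D.flatMap MP.piece) (run N (rt N) P.piece f) := by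
        unfold run
        rw [List.foldl_append]
      rw [e2, List.map_cons, List.prod_cons]
      refine fun s hs => (h2 s hs).trans (le_of_eq ?_)
      ring

/-- **the bound of the invariant** -/
theorem jones_bd {ε E H : ℝ} (hN : 1 ≤ N)
    (hTW : ∀ m : ℕ, ∀ p q : Fin N × Fin N, ‖(PP N ^ m) p q‖ ≤ wt N ε m ∧
      ‖(QQ N ^ m) p q‖ ≤ wt N ε m) (hE0 : 0 ≤ E) (hE : CrB N l E) (hH1 : 1 ≤ H) (hH : HB N l H)
    (D : List MP) {e d : ℤ} (hs : steps D [e] = some [d]) :
    ‖jones N (D.flatMap MP.piece) (rt N)‖ ≤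
      (D.map (MP.cost N ε E H)).prod * H ^ (d - e).natAbs := by
  have h0 : 0 < N := hN
  have hH0 : 0 ≤ H := by linarith
  unfold jones
  rw [dif_pos h0]
  set f0 : List (Fin N) → ℂ := fun s => if s = [(⟨0, h0⟩ : Fin N)] then 1 else 0 with hf0
  have hW := W_pos (N := N) (l := l) h0
  have hB0 : Bd N l (W N l 0 ^ e) [e] f0 := by
    intro s hs
    by_cases h : s = [(⟨0, h0⟩ : Fin N)]
    · rw [h, hf0]
      simp [wgt]
    · rw [hf0]
      dsimp only
      rw [if_neg h, norm_zero, zero_mul]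
      exact (zpow_pos hW _).le
  have h1 := run_bd hN hTW hE0 hE hH0 hH D _ (zpow_pos hW e).le hs hB0 [⟨0, h0⟩] rfl
  have e1 : wgt N l [d] [(⟨0, h0⟩ : Fin N)] = W N l 0 ^ d := by simp [wgt]
  rw [e1] at h1
  have h2 : ‖run N (rt N) (D.flatMap MP.piece) f0 [⟨0, h0⟩]‖ ≤
      (D.map (MP.cost N ε E H)).prod * W N l 0 ^ (e - d) := by
    rw [zpow_sub₀ hW.ne', ← mul_div_assoc, le_div_iff₀ (zpow_pos hW d)]
    exact h1
  refine h2.trans (mul_le_mul_of_nonneg_left ?_ ?_)
  · rcases Int.natAbs_eq (d - e) with h | h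
    · have : e - d = -(((d - e).natAbs : ℕ) : ℤ) := by omega
      rw [this, zpow_neg, zpow_natCast, ← inv_pow]
      exact pow_le_pow_left₀ (inv_pos.2 hW).le (hH 0 h0).2 _
    · have : e - d = (((d - e).natAbs : ℕ) : ℤ) := by omega
      rw [this, zpow_natCast]
      exact pow_le_pow_left₀ hW.le (hH 0 h0).1 _
  · refine List.prod_nonneg fun x hx => ?_
    obtain ⟨P, -, rfl⟩ := List.mem_map.1 hx
    exact cost_nonneg hE0 hH0 P

end Pool.Agent.K7.H9.VC
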