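import Pool.Agent.K7.H9.VC.Gauge

/-!
# Weighted bounds of the state sum, for arbitrary weights
-/

set_option autoImplicit false

namespace Pool.Agent.K7.H9.VC.Gen

open Finset Filter Topology Pool.Agent.H550R3.Jones Pool.Agent.W715.VC Pool.Agent.W709.QAT
open Pool.Agent.W28.QAT (sum_bound norm_cup_le norm_cap_le)
open scoped Real

variable {N : ℕ} {κ : Type*} {w : κ → ℕ → ℝ}

/-- the weight of a state -/
noncomputable def wgt (w : κ → ℕ → ℝ) : List κ → List (Fin N) → ℝ
  | e :: ms, x :: s => w e x * wgt w ms s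
  | _, _ => 1

lemma wgt_pos (hw : ∀ e : κ, ∀ x : ℕ, x < N → 0 < w e x) (ms : List κ) (s : List (Fin N)) :
    0 < wgt w ms s := by
  induction ms generalizing s with
  | nil => simp [wgt]
  | cons e ms ih =>
    cases s with
    | nil => simp [wgt]
    | cons x s =>
      rw [wgt]
      have := hw e x x.2
      have := ih s
      positivity

lemma wgt_append (m1 m2 : List κ) (s1 s2 : List (Fin N)) (h : s1.length = m1.length) :
    wgt w (m1 ++ m2) (s1 ++ s2) = wgt w m1 s1 * wgt w m2 s2 := by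
  induction m1 generalizing s1 with
  | nil =>
    have : s1 = [] := List.length_eq_zero_iff.1 (by simpa using h)
    subst this
    simp [wgt]
  | cons e m1 ih =>
    cases s1 with
    | nil => simp at h
    | cons x s1 =>
      have h' : s1.length = m1.length := by simpa using h
      rw [List.cons_append, List.cons_append, wgt, wgt, ih s1 h']
      ring

/-- the weighted bound of a vector -/
def Bd (w : κ → ℕ → ℝ) (C : ℝ) (ms : List κ) (f : List (Fin N) → ℂ) : Prop :=
  ∀ s : List (Fin N), s.length = ms.length → ‖f s‖ * wgt w ms s ≤ C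

lemma bd_cup (hw : ∀ e : κ, ∀ x : ℕ, x < N → 0 < w e x)
    (hr : ∀ e : κ, ∀ x : ℕ, x < N → w e x * w e (N - 1 - x) = 1)
    {C : ℝ} {m1 m2 : List κ} {f : List (Fin N) → ℂ} (e : κ)
    (hC : 0 ≤ C) (hf : Bd w C (m1 ++ m2) f) :
    Bd w C (m1 ++ e :: e :: m2) ((Piece.cup m1.length).act N (rt N) f) := by
  intro s hs
  have hs' : s.length = m1.length + 2 + m2.length := by
    rw [hs, List.length_append, List.length_cons, List.length_cons]; omega
  obtain ⟨t, a, b, r, rfl, ht, hr', hd, htk⟩ := split2 hs'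
  have e1 : (Piece.cup m1.length).act N (rt N) f (t ++ a :: b :: r) =
      Pool.Agent.W709.QAT.cup N (rt N) (a, b) * f (t ++ r) := by
    simp only [Piece.act, hd, htk]
  rw [e1, norm_mul, wgt_append _ _ _ _ ht, wgt, wgt]
  by_cases hab : (a : ℕ) + b = N - 1
  · have hb : (b : ℕ) = N - 1 - a := by omega
    have hW : w e a * w e b = 1 := by
      rw [hb]; exact hr e a a.2
    have h1 := hf (t ++ r) (by rw [List.length_append, List.length_append, ht, hr'])
    rw [wgt_append _ _ _ _ ht] at h1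
    have h2 : ‖Pool.Agent.W709.QAT.cup N (rt N) (a, b)‖ * ‖f (t ++ r)‖ *
        (wgt w m1 t * (w e a * (w e b * wgt w m2 r))) =
        ‖Pool.Agent.W709.QAT.cup N (rt N) (a, b)‖ *
          ((w e a * w e b) * (‖f (t ++ r)‖ * (wgt w m1 t * wgt w m2 r))) := by ring
    rw [h2, hW, one_mul]
    have h3 := norm_cup_le (N := N) (a, b)
    have h4 : 0 ≤ ‖f (t ++ r)‖ * (wgt w m1 t * wgt w m2 r) :=
      mul_nonneg (norm_nonneg _) (mul_pos (wgt_pos hw _ _) (wgt_pos hw _ _)).le
    calc _ ≤ 1 * (‖f (t ++ r)‖ * (wgt w m1 t * wgt w m2 r)) :=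
          mul_le_mul_of_nonneg_right h3 h4
      _ ≤ C := by rw [one_mul]; exact h1
  · have h0 : Pool.Agent.W709.QAT.cup N (rt N) (a, b) = 0 := by
      unfold Pool.Agent.W709.QAT.cup
      rw [if_neg hab]
    rw [h0, norm_zero, zero_mul, zero_mul]
    exact hC

lemma bd_cap (hw : ∀ e : κ, ∀ x : ℕ, x < N → 0 < w e x)
    (hr : ∀ e : κ, ∀ x : ℕ, x < N → w e x * w e (N - 1 - x) = 1)
    {C : ℝ} {m1 m2 : List κ} {f : List (Fin N) → ℂ} (e : κ)
    (hC : 0 ≤ C) (hf : Bd w C (m1 ++ e :: e :: m2) f) :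
    Bd w ((N : ℝ) ^ 2 * C) (m1 ++ m2) ((Piece.cap m1.length).act N (rt N) f) := by
  intro s hs
  have e0 : (Piece.cap m1.length).act N (rt N) f s =
      ∑ p : Fin N × Fin N, Pool.Agent.W709.QAT.cap N (rt N) p *
        f (s.take m1.length ++ p.1 :: p.2 :: s.drop m1.length) := rfl
  set t := s.take m1.length with ht
  set r := s.drop m1.length with hr'
  have hst : s = t ++ r := (List.take_append_drop _ _).symm
  have htl : t.length = m1.length := by
    rw [ht, List.length_take]; rw [List.length_append] at hs; omega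
  have hrl : r.length = m2.length := by
    rw [hr', List.length_drop]; rw [List.length_append] at hs; omega
  have hw' : wgt w (m1 ++ m2) s = wgt w m1 t * wgt w m2 r := by
    rw [hst]; exact wgt_append _ _ _ _ htl
  rw [e0, hw']
  have hpos : 0 < wgt w m1 t * wgt w m2 r := mul_pos (wgt_pos hw _ _) (wgt_pos hw _ _)
  rw [← le_div_iff₀ hpos, mul_div_assoc]
  apply sum_bound
  intro p
  rw [le_div_iff₀ hpos, norm_mul]
  by_cases hp : (p.1 : ℕ) + p.2 = N - 1
  · have hb : (p.2 : ℕ) = N - 1 - p.1 := by omega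
    have hW : w e p.1 * w e p.2 = 1 := by
      rw [hb]; exact hr e p.1 p.1.2
    have h1 := hf (t ++ p.1 :: p.2 :: r) (by
      simp only [List.length_append, List.length_cons, htl, hrl])
    rw [wgt_append _ _ _ _ htl, wgt, wgt] at h1
    have h2 : ‖f (t ++ p.1 :: p.2 :: r)‖ *
        (wgt w m1 t * (w e p.1 * (w e p.2 * wgt w m2 r))) =
        (w e p.1 * w e p.2) *
          (‖f (t ++ p.1 :: p.2 :: r)‖ * (wgt w m1 t * wgt w m2 r)) := by ring
    rw [h2, hW, one_mul] at h1
    have h3 := norm_cap_le (N := N) p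
    have h4 : 0 ≤ ‖f (t ++ p.1 :: p.2 :: r)‖ * (wgt w m1 t * wgt w m2 r) :=
      mul_nonneg (norm_nonneg _) hpos.le
    rw [mul_assoc]
    calc _ ≤ 1 * (‖f (t ++ p.1 :: p.2 :: r)‖ * (wgt w m1 t * wgt w m2 r)) :=
          mul_le_mul_of_nonneg_right h3 h4
      _ ≤ C := by rw [one_mul]; exact h1
  · have h0 : Pool.Agent.W709.QAT.cap N (rt N) p = 0 := by
      unfold Pool.Agent.W709.QAT.cap
      rw [if_neg hp]
    rw [h0, norm_zero, zero_mul, zero_mul]
    exact hC

/-- two-strand pieces: a bound of the weighted entries -/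
lemma bd_two (hw : ∀ e : κ, ∀ x : ℕ, x < N → 0 < w e x)
    {C E : ℝ} {m1 m2 : List κ} {f : List (Fin N) → ℂ} {e1 e2 d1 d2 : κ} {m : ℕ} {σ : Bool}
    (hE : 0 ≤ E) (hf : Bd w C (m1 ++ e1 :: e2 :: m2) f)
    (hent : ∀ a b x y : Fin N,
      ‖((if σ then crossP N (rt N) else crossN N (rt N)) ^ m) (a, b) (x, y)‖ *
        (w d1 a * w d2 b) ≤ E * (w e1 x * w e2 y)) :
    Bd w ((N : ℝ) ^ 2 * (E * C)) (m1 ++ d1 :: d2 :: m2)
      ((Piece.twist m1.length σ m).act N (rt N) f) := by
  intro s hs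
  have hs' : s.length = m1.length + 2 + m2.length := by
    rw [hs, List.length_append, List.length_cons, List.length_cons]; omega
  obtain ⟨t, a, b, r, rfl, ht, hr, hd, htk⟩ := split2 hs'
  have e1' : (Piece.twist m1.length σ m).act N (rt N) f (t ++ a :: b :: r) =
      ∑ p : Fin N × Fin N, ((if σ then crossP N (rt N) else crossN N (rt N)) ^ m) (a, b) p *
        f (t ++ p.1 :: p.2 :: r) := by
    simp only [Piece.act, hd, htk]
  rw [e1', wgt_append _ _ _ _ ht, wgt, wgt]
  have hw1 := wgt_pos hw m1 t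
  have hw2 := wgt_pos hw m2 r
  have hWa : 0 < w d1 a := hw _ _ a.2
  have hWb : 0 < w d2 b := hw _ _ b.2
  have hpos : 0 < wgt w m1 t * (w d1 a * (w d2 b * wgt w m2 r)) := by positivity
  rw [← le_div_iff₀ hpos, mul_div_assoc]
  apply sum_bound
  intro p
  rw [le_div_iff₀ hpos, norm_mul]
  have h1 := hf (t ++ p.1 :: p.2 :: r) (by
    simp only [List.length_append, List.length_cons, ht, hr])
  rw [wgt_append _ _ _ _ ht, wgt, wgt] at h1
  have h2 := hent a b p.1 p.2
  have h3 : ‖((if σ then crossP N (rt N) else crossN N (rt N)) ^ m) (a, b) p‖ *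
      ‖f (t ++ p.1 :: p.2 :: r)‖ *
      (wgt w m1 t * (w d1 a * (w d2 b * wgt w m2 r))) =
      (‖((if σ then crossP N (rt N) else crossN N (rt N)) ^ m) (a, b) p‖ *
        (w d1 a * w d2 b)) *
      (‖f (t ++ p.1 :: p.2 :: r)‖ * (wgt w m1 t * wgt w m2 r)) := by ring
  rw [h3]
  have h4 : 0 ≤ ‖f (t ++ p.1 :: p.2 :: r)‖ * (wgt w m1 t * wgt w m2 r) := by positivity
  calc _ ≤ (E * (w e1 p.1 * w e2 p.2)) *
        (‖f (t ++ p.1 :: p.2 :: r)‖ * (wgt w m1 t * wgt w m2 r)) :=
        mul_le_mul_of_nonneg_right h2 h4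
    _ = E * (‖f (t ++ p.1 :: p.2 :: r)‖ *
        (wgt w m1 t * (w e1 p.1 * (w e2 p.2 * wgt w m2 r)))) := by ring
    _ ≤ E * C := mul_le_mul_of_nonneg_left h1 hE

end Pool.Agent.K7.H9.VC.Gen
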