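import Pool.Agent.K7.H9.VC.Gauge
import Pool.Agent.W709.QAT.Fin

/-!
# Bridges and the growth of the Kashaev invariant: the limit
-/

set_option autoImplicit false

namespace Pool.Agent.K7.H9.VC

open Finset Filter Topology Pool.Agent.H550R3.Jones Pool.Agent.W715.VC Pool.Agent.W709.QAT
open Pool.Agent.W28.QAT (wt wt_pos rate_nonneg log_prod_wt)
open GapVol (lob)
open scoped Real

variable {N : ℕ} {l : ℝ}

/-- number of marked crossings -/
def ncr : List MP → ℕ
  | [] => 0
  | .cross _ _ :: D => ncr D + 1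
  | _ :: D => ncr D

/-- number of changes of marks -/
def ntu : List MP → ℕ
  | [] => 0
  | .turn _ _ :: D => ntu D + 1
  | _ :: D => ntu D

/-- the unmarked twist regions -/
def tws : List MP → List ℕ
  | [] => []
  | .twist _ _ m :: D => m :: tws D
  | _ :: D => tws D

lemma cost_prod (N : ℕ) (ε E H : ℝ) (D : List MP) : (D.map (MP.cost N ε E H)).prod =
    ((N : ℝ) ^ 2) ^ D.length * (E ^ ncr D * (H ^ ntu D * ((tws D).map (wt N ε)).prod)) := by
  induction D with
  | nil => simp [ncr, ntu, tws]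
  | cons P D ih =>
    rw [List.map_cons, List.prod_cons, ih, List.length_cons]
    cases P with
    | cup i e => simp only [MP.cost, ncr, ntu, tws]; ring
    | cap i => simp only [MP.cost, ncr, ntu, tws]; ring
    | cross i σ => simp only [MP.cost, ncr, ntu, tws]; ring
    | twist i σ m => simp only [MP.cost, ncr, ntu, tws, List.map_cons, List.prod_cons]; ring
    | turn i d => simp only [MP.cost, ncr, ntu, tws]; ring

lemma crb {δ α : ℝ} (hN : 1 ≤ N) (hα : ∀ θ : ℝ, 0 ≤ θ → θ ≤ π → lob θ - l * θ ≤ α)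
    (hL : ∀ k : ℕ, k < N → 0 < Fa N k ∧ |Real.log (Fa N k) + N / π * lob (π * k / N)| ≤ δ * N) :
    CrB N l (Real.exp (N * (α / π + δ))) := by
  intro n hn
  have hpi := Real.pi_pos
  have hNr : (0 : ℝ) < N := by exact_mod_cast hN
  obtain ⟨h1, h2⟩ := hL n hn
  have hnN : (n : ℝ) ≤ N := by exact_mod_cast hn.le
  have h3 := hα (π * n / N) (by positivity) (by
    rw [div_le_iff₀ hNr]
    exact mul_le_mul_of_nonneg_left hnN hpi.le)
  rw [div_le_iff₀ h1, ← Real.log_le_log_iff (Real.exp_pos _) (by positivity),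
    Real.log_exp, Real.log_mul (Real.exp_pos _).ne' h1.ne', Real.log_exp]
  have h4 := (abs_le.1 h2).1
  have h5 : (N : ℝ) / π * (lob (π * n / N) - l * (π * n / N)) ≤ N / π * α :=
    mul_le_mul_of_nonneg_left h3 (by positivity)
  have e1 : (N : ℝ) / π * (lob (π * n / N) - l * (π * n / N)) =
      N / π * lob (π * n / N) - l * n := by
    field_simp
  have e2 : (N : ℝ) * (α / π + δ) = N / π * α + δ * N := by ring
  rw [e1] at h5
  rw [e2]
  linarith

lemma log_top {δ : ℝ} (hN : 1 ≤ N)
    (hL : ∀ k : ℕ, k < N → 0 < Fa N k ∧ |Real.log (Fa N k) + N / π * lob (π * k / N)| ≤ δ * N) :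
    Real.log (Fa N (N - 1)) ≤ Real.log N + 1 / 6 + δ * N := by
  have hpi := Real.pi_pos
  have hNr : (0 : ℝ) < N := by exact_mod_cast hN
  obtain ⟨h1, h2⟩ := hL (N - 1) (by omega)
  have h3 := (abs_le.1 h2).2
  have e1 : π * ((N - 1 : ℕ) : ℝ) / N = π - π / N := by
    rw [Nat.cast_sub hN]
    push_cast
    field_simp
  rw [e1, lob_pi_sub] at h3
  have h4 := lob_exp (θ := π / N) (l := Real.log N)
    (Real.log_nonneg (by exact_mod_cast hN)) (by positivity)
  rw [Real.exp_neg, Real.exp_log hNr] at h4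
  have h5 : (N : ℝ) / π * lob (π / N) ≤ N / π * (Real.log N * (π / N) + π / 6 * (N : ℝ)⁻¹) :=
    mul_le_mul_of_nonneg_left (by linarith) (by positivity)
  have e2 : (N : ℝ) / π * (Real.log N * (π / N) + π / 6 * (N : ℝ)⁻¹) = Real.log N + 1 / 6 := by
    field_simp
  rw [e2] at h5
  have e3 : (N : ℝ) / π * -lob (π / N) = -((N : ℝ) / π * lob (π / N)) := by ring
  rw [e3] at h3
  linarith

lemma tws_prod_pos (N : ℕ) (ε : ℝ) (t : List ℕ) : 0 < (t.map (wt N ε)).prod := by
  induction t with
  | nil => simp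
  | cons m t ih =>
    rw [List.map_cons, List.prod_cons]
    exact mul_pos (wt_pos N ε m) ih

/-- **the growth of the Kashaev invariant of a marked diagram** -/
theorem growth (D : List MP) {e d : ℤ} (hs : steps D [e] = some [d]) {α β : ℝ}
    (hα : ∀ θ : ℝ, 0 ≤ θ → θ ≤ π → lob θ - l * θ ≤ α)
    (hβ : ∀ θ : ℝ, 0 ≤ θ → θ ≤ π → lob θ - l / 2 * θ ≤ β) (hl : 0 ≤ l) {ε : ℝ} (hε : 0 < ε) :
    ∀ᶠ N : ℕ in atTop, 2 * π * (Real.log ‖jones N (D.flatMap MP.piece) (rt N)‖ / N) ≤
      ((tws D).map rate).sum + 2 * (ncr D : ℝ) * α +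
        ((ntu D : ℝ) + (d - e).natAbs) * (2 * β + π * l / 2) + ε := by
  have hpi := Real.pi_pos
  set h : ℝ := (ntu D : ℝ) + (d - e).natAbs with hh
  have hh0 : 0 ≤ h := by positivity
  set K : ℝ := ((tws D).map (fun m : ℕ => 2 * Real.log ((m : ℝ) + 1))).sum with hK
  set T : ℝ := ((tws D).length : ℝ) with hT
  have hT0 : 0 ≤ T := by positivity
  set S : ℝ := (ncr D : ℝ) + 2 * h + T + 1 with hS
  have hS0 : 0 < S := by positivity
  have hδ : 0 < ε / (4 * π * S) := by positivity
  set δ : ℝ := ε / (4 * π * S) with hδd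
  have hα0 : 0 ≤ α := by
    have := hα 0 le_rfl hpi.le
    rw [GapVol.lob_zero] at this
    linarith
  have hβ0 : 0 ≤ β := by
    have := hβ 0 le_rfl hpi.le
    rw [GapVol.lob_zero] at this
    linarith
  have hlim : Tendsto (fun N : ℕ => 2 * π * ((2 * (D.length : ℝ) * Real.log N +
      h * ((Real.log N + 1 / 6) / 2) + K) / N)) atTop (𝓝 0) := by
    have h1 : Tendsto (fun N : ℕ => Real.log (N : ℝ) / N) atTop (𝓝 0) := by
      have := (Real.isLittleO_log_id_atTop.tendsto_div_nhds_zero).comp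
        (tendsto_natCast_atTop_atTop (R := ℝ))
      exact this
    have h2 : Tendsto (fun N : ℕ => (1 : ℝ) / N) atTop (𝓝 0) := tendsto_one_div_atTop_nhds_zero_nat
    have h3 := ((h1.const_mul (2 * (D.length : ℝ) + h / 2)).add
      (h2.const_mul (h / 12 + K))).const_mul (2 * π)
    simp only [mul_zero, add_zero] at h3
    refine h3.congr fun N => ?_
    ring
  filter_upwards [Pool.Agent.W709.QAT.tw δ hδ, Pool.Agent.W563.QAT.lb δ hδ,
    eventually_ge_atTop 1, hlim.eventually (gt_mem_nhds (show (0 : ℝ) < ε / 2 by positivity))]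
    with N h1 h2 hN h4
  have hNr : (0 : ℝ) < N := by exact_mod_cast hN
  have hE := crb (l := l) hN hα h2
  have hE2 := crb (l := l / 2) hN hβ h2
  have hH := hb_of hE2
  set E : ℝ := Real.exp (N * (α / π + δ)) with hEd
  set H : ℝ := √(Fa N (N - 1)) * Real.exp (l * ((N : ℝ) - 1) / 4) *
    Real.exp (N * (β / π + δ)) with hHd
  have hG0 : 0 < Fa N (N - 1) := Fa_pos (by omega)
  have hH0 : 0 < H := by
    have := Real.sqrt_pos.2 hG0
    positivity
  have hH1 : 1 ≤ H := by
    obtain ⟨a1, a2⟩ := hH 0 (by omega)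
    have a3 := W_pos (N := N) (l := l) (x := 0) (by omega)
    by_contra hc
    push Not at hc
    have a4 : (W N l 0)⁻¹ < 1 := lt_of_le_of_lt a2 hc
    have a5 : W N l 0 < 1 := lt_of_le_of_lt a1 hc
    rw [inv_lt_one₀ a3] at a4
    linarith
  have hJ := jones_bd hN h1 (Real.exp_pos _).le hE hH1 hH D hs
  rw [cost_prod] at hJ
  have hlogH : Real.log H ≤ (Real.log N + 1 / 6 + δ * N) / 2 + l * N / 4 + N * (β / π + δ) := by
    rw [hHd, Real.log_mul (by positivity) (Real.exp_pos _).ne',
      Real.log_mul (Real.sqrt_pos.2 hG0).ne' (Real.exp_pos _).ne', Real.log_exp, Real.log_exp,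
      Real.log_sqrt hG0.le]
    have a1 := log_top hN h2
    have a2 : l * ((N : ℝ) - 1) / 4 ≤ l * N / 4 := by
      have := mul_le_mul_of_nonneg_left (show (N : ℝ) - 1 ≤ N by linarith) hl
      linarith
    linarith
  have hR : 0 ≤ ((tws D).map rate).sum :=
    List.sum_nonneg fun x hx => by
      obtain ⟨m, -, rfl⟩ := List.mem_map.1 hx
      exact rate_nonneg m
  have hRHS : 0 ≤ ((tws D).map rate).sum + 2 * (ncr D : ℝ) * α + h * (2 * β + π * l / 2) + ε := by
    positivity
  rcases (norm_nonneg (jones N (D.flatMap MP.piece) (rt N))).eq_or_lt with h0 | h0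
  · rw [← h0, Real.log_zero, zero_div, mul_zero]
    exact hRHS
  have hP := tws_prod_pos N δ (tws D)
  have hE0 : 0 < E := Real.exp_pos _
  have hlog := Real.log_le_log h0 hJ
  rw [Real.log_mul (by positivity) (by positivity), Real.log_mul (by positivity) (by positivity),
    Real.log_mul (by positivity) (by positivity), Real.log_mul (by positivity) hP.ne',
    log_prod_wt, Real.log_pow, Real.log_pow, Real.log_pow, Real.log_pow, Real.log_pow,
    Real.log_exp] at hlog
  have b1 : (ntu D : ℝ) * Real.log H + ((d - e).natAbs : ℝ) * Real.log H ≤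
      h * ((Real.log N + 1 / 6 + δ * N) / 2 + l * N / 4 + N * (β / π + δ)) := by
    rw [← add_mul]
    exact mul_le_mul_of_nonneg_left hlogH hh0
  have b2 : Real.log ‖jones N (D.flatMap MP.piece) (rt N)‖ ≤
      (2 * (D.length : ℝ) * Real.log N + h * ((Real.log N + 1 / 6) / 2) + K) +
      N * (((tws D).map rate).sum / (2 * π) + (ncr D : ℝ) * (α / π) +
        h * (l / 4 + β / π) + δ * ((ncr D : ℝ) + h / 2 + h + T)) := by
    refine hlog.trans ?_
    push_cast
    have e1 : (2 * (D.length : ℝ) * Real.log N + h * ((Real.log N + 1 / 6) / 2) + K) +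
      N * (((tws D).map rate).sum / (2 * π) + (ncr D : ℝ) * (α / π) +
        h * (l / 4 + β / π) + δ * ((ncr D : ℝ) + h / 2 + h + T)) =
      (D.length : ℝ) * (2 * Real.log N) + ((ncr D : ℝ) * (N * (α / π + δ)) +
        (h * ((Real.log N + 1 / 6 + δ * N) / 2 + l * N / 4 + N * (β / π + δ)) +
        (K + N / (2 * π) * ((tws D).map rate).sum + N * δ * T))) := by
      ring
    rw [e1]
    linarith
  have b3 := mul_le_mul_of_nonneg_left (div_le_div_of_nonneg_right b2 hNr.le)
    (show (0 : ℝ) ≤ 2 * π by positivity)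
  refine b3.trans ?_
  have e2 : 2 * π * (((2 * (D.length : ℝ) * Real.log N + h * ((Real.log N + 1 / 6) / 2) + K) +
      N * (((tws D).map rate).sum / (2 * π) + (ncr D : ℝ) * (α / π) +
        h * (l / 4 + β / π) + δ * ((ncr D : ℝ) + h / 2 + h + T))) / N) =
      2 * π * ((2 * (D.length : ℝ) * Real.log N + h * ((Real.log N + 1 / 6) / 2) + K) / N) +
      (((tws D).map rate).sum + 2 * (ncr D : ℝ) * α + h * (2 * β + π * l / 2)) +
        2 * π * δ * ((ncr D : ℝ) + h / 2 + h + T) := by
    field_simp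
    ring
  rw [e2]
  have b4 : 2 * π * δ * ((ncr D : ℝ) + h / 2 + h + T) ≤ ε / 2 := by
    have c1 : (ncr D : ℝ) + h / 2 + h + T ≤ S := by rw [hS]; linarith
    have c2 : 2 * π * δ * S = ε / 2 := by
      rw [hδd]
      field_simp
      ring
    rw [← c2]
    exact mul_le_mul_of_nonneg_left c1 (by positivity)
  linarith

/-! ### explicit bounds -/

/-- the bound for `c` crossings and `2 a` ends of marked arcs -/
noncomputable def bnd (c a : ℝ) : ℝ :=
  if c ≤ 3 * a then (c + 2 * a) * (2 * lob (π / 6))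
  else π * a * (1 + Real.log (c / (3 * a)) + 2 / 3 * √(3 * a / c))

theorem growth_lam (D : List MP) {e d : ℤ} (hs : steps D [e] = some [d]) (hl : 0 ≤ l) {ε : ℝ}
    (hε : 0 < ε) :
    ∀ᶠ N : ℕ in atTop, 2 * π * (Real.log ‖jones N (D.flatMap MP.piece) (rt N)‖ / N) ≤
      ((tws D).map rate).sum + π / 3 * (ncr D : ℝ) * Real.exp (-l) +
        ((ntu D : ℝ) + (d - e).natAbs) * (π / 3 * Real.exp (-(l / 2)) + π * l / 2) + ε := by
  have h := growth (l := l) D hs (α := π / 6 * Real.exp (-l)) (β := π / 6 * Real.exp (-(l / 2)))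
    (fun θ h0 _ => lob_exp hl h0) (fun θ h0 _ => lob_exp (by linarith) h0) hl hε
  filter_upwards [h] with N hN
  refine hN.trans (le_of_eq ?_)
  ring

theorem growth_zero (D : List MP) {e d : ℤ} (hs : steps D [e] = some [d]) {ε : ℝ}
    (hε : 0 < ε) :
    ∀ᶠ N : ℕ in atTop, 2 * π * (Real.log ‖jones N (D.flatMap MP.piece) (rt N)‖ / N) ≤
      ((tws D).map rate).sum + ((ncr D : ℝ) + ((ntu D : ℝ) + (d - e).natAbs)) *
        (2 * lob (π / 6)) + ε := by
  have h := growth (l := 0) D hs (α := lob (π / 6)) (β := lob (π / 6))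
    (fun θ _ _ => by rw [zero_mul, sub_zero]; exact lob_max θ)
    (fun θ _ _ => by rw [zero_div, zero_mul, sub_zero]; exact lob_max θ) le_rfl hε
  filter_upwards [h] with N hN
  refine hN.trans (le_of_eq ?_)
  ring

theorem growth_bnd (D : List MP) {e d : ℤ} (hs : steps D [e] = some [d]) {ε : ℝ}
    (hε : 0 < ε) :
    ∀ᶠ N : ℕ in atTop, 2 * π * (Real.log ‖jones N (D.flatMap MP.piece) (rt N)‖ / N) ≤
      ((tws D).map rate).sum + bnd (ncr D) (((ntu D : ℝ) + (d - e).natAbs) / 2) + ε := by
  have hpi := Real.pi_pos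
  set a : ℝ := ((ntu D : ℝ) + (d - e).natAbs) / 2 with ha
  have ha0 : 0 ≤ a := by positivity
  have ha2 : (ntu D : ℝ) + (d - e).natAbs = 2 * a := by rw [ha]; ring
  set c : ℝ := (ncr D : ℝ) with hc
  unfold bnd
  split_ifs with hca
  · filter_upwards [growth_zero D hs hε] with N hN
    refine hN.trans (le_of_eq ?_)
    rw [ha2]
  · push Not at hca
    have hc0 : 0 < c := by linarith
    rcases ha0.eq_or_lt with h0 | h0
    · -- no marked ends
      have h1 : 0 < π / 3 * c * 1 := by positivity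
      obtain ⟨l, hl0, hl1⟩ : ∃ l : ℝ, 0 ≤ l ∧ π / 3 * c * Real.exp (-l) ≤ ε / 2 := by
        refine ⟨max 0 (-Real.log (ε / 2 / (π / 3 * c))), le_max_left _ _, ?_⟩
        have h2 : Real.exp (-max 0 (-Real.log (ε / 2 / (π / 3 * c)))) ≤ ε / 2 / (π / 3 * c) := by
          rw [← Real.le_log_iff_exp_le (by positivity)]
          have := le_max_right 0 (-Real.log (ε / 2 / (π / 3 * c)))
          linarith
        calc π / 3 * c * Real.exp (-max 0 (-Real.log (ε / 2 / (π / 3 * c)))) ≤
              π / 3 * c * (ε / 2 / (π / 3 * c)) :=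
              mul_le_mul_of_nonneg_left h2 (by positivity)
          _ = ε / 2 := by field_simp
      filter_upwards [growth_lam (l := l) D hs hl0 (half_pos hε)] with N hN
      refine hN.trans ?_
      rw [ha2, ← h0]
      simp only [mul_zero, zero_mul, add_zero]
      linarith
    · have hl0 : 0 ≤ Real.log (c / (3 * a)) := by
        apply Real.log_nonneg
        rw [le_div_iff₀ (by positivity), one_mul]
        exact hca.le
      filter_upwards [growth_lam (l := Real.log (c / (3 * a))) D hs hl0 hε] with N hN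
      refine hN.trans (le_of_eq ?_)
      have e1 : Real.exp (-Real.log (c / (3 * a))) = 3 * a / c := by
        rw [Real.exp_neg, Real.exp_log (by positivity), inv_div]
      have e2 : Real.exp (-(Real.log (c / (3 * a)) / 2)) = √(3 * a / c) := by
        rw [Real.sqrt_eq_rpow, Real.rpow_def_of_pos (by positivity)]
        congr 1
        have : Real.log (3 * a / c) = -Real.log (c / (3 * a)) := by
          rw [← Real.log_inv, inv_div]
        rw [this]
        ring
      rw [ha2, e1, e2]
      field_simp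
      ring

end Pool.Agent.K7.H9.VC
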