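import Pool.Agent.K7.H9.VC.Gen
import Pool.Agent.K7.H9.VC.Alt

/-!
# Marked half-edges and the two ends of the open strand

Marks: `over`, `under`, `free` as before, `bot` for the strand which starts at the bottom (label `0`)
as long as it passes over, `top` for the strand which ends at the top as long as it passes under.
-/

set_option autoImplicit false

namespace Pool.Agent.K7.H9.VC.Mrk

open Finset Filter Topology Pool.Agent.H550R3.Jones Pool.Agent.W715.VC Pool.Agent.W709.QAT
open Pool.Agent.W28.QAT (sum_bound wt wt_pos rate_nonneg)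
open GapVol (lob)
open scoped Real

variable {N : ℕ}

/-- the marks -/
inductive Mark
  | free
  | over
  | under
  | bot
  | top
  deriving DecidableEq

/-- the exponent of `W` -/
def Mark.w : Mark → ℤ
  | .over => 1
  | .under => -1
  | _ => 0

/-- the exponent of `M` -/
def Mark.v : Mark → ℤ
  | .bot => 1
  | .top => -1
  | _ => 0

/-- the `W`-part of the weight -/
noncomputable def J (N : ℕ) (m : Mark) (x : ℕ) : ℝ := W N 0 x ^ m.w

/-- the weight -/
noncomputable def om (N : ℕ) (M : ℝ) (m : Mark) (x : ℕ) : ℝ :=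
  J N m x * M ^ (((x : ℝ) - ((N : ℝ) - 1) / 2) * (m.v : ℝ))

lemma J_pos {m : Mark} {x : ℕ} (hx : x < N) : 0 < J N m x := zpow_pos (W_pos hx) _

lemma om_pos {M : ℝ} (hM : 1 ≤ M) (m : Mark) (x : ℕ) (hx : x < N) : 0 < om N M m x :=
  mul_pos (J_pos hx) (Real.rpow_pos_of_pos (by linarith) _)

lemma om_refl {M : ℝ} (hM : 1 ≤ M) (m : Mark) (x : ℕ) (hx : x < N) :
    om N M m x * om N M m (N - 1 - x) = 1 := by
  have hM0 : 0 < M := by linarith
  have hN : (((N - 1 - x : ℕ) : ℕ) : ℝ) = (N : ℝ) - 1 - x := by
    rw [Nat.cast_sub (by omega), Nat.cast_sub (by omega)]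
    simp
  unfold om
  rw [hN]
  have e : J N m x * M ^ (((x : ℝ) - ((N : ℝ) - 1) / 2) * (m.v : ℝ)) *
      (J N m (N - 1 - x) * M ^ (((N : ℝ) - 1 - x - ((N : ℝ) - 1) / 2) * (m.v : ℝ))) =
      (J N m x * J N m (N - 1 - x)) * (M ^ (((x : ℝ) - ((N : ℝ) - 1) / 2) * (m.v : ℝ)) *
        M ^ (((N : ℝ) - 1 - x - ((N : ℝ) - 1) / 2) * (m.v : ℝ))) := by ring
  rw [e, ← Real.rpow_add hM0]
  have e2 : ((x : ℝ) - ((N : ℝ) - 1) / 2) * (m.v : ℝ) +
      ((N : ℝ) - 1 - x - ((N : ℝ) - 1) / 2) * (m.v : ℝ) = 0 := by ring
  rw [e2, Real.rpow_zero, mul_one]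
  unfold J
  rw [← mul_zpow, W_refl hx, _root_.one_zpow]

/-- the absolute value of an entry of a crossing: `x`, `b` are the labels of the two ends of the upper
strand, `y`, `a` of the lower strand -/
noncomputable def R (N x b y a : ℕ) : ℝ := Fa N a / (Fa N y * Fa N (a - y)) * (Fa N x / Fa N b)

/-- admissible labels -/
def Ok (N x b y a : ℕ) : Prop := x < N ∧ b < N ∧ y < N ∧ a < N ∧ a + b = x + y ∧ y ≤ a

/-! ### values at the boundary -/

lemma W_zero_l (k : ℕ) : W N 0 k = Fa N k / √(Fa N (N - 1)) := by
  unfold W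
  rw [zero_div, zero_mul, Real.exp_zero, mul_one]

lemma div_W {x b : ℕ} (hx : x < N) (hb : b < N) : Fa N x / Fa N b = W N 0 x / W N 0 b := by
  have h1 := Fa_pos hx
  have h2 := Fa_pos hb
  have h3 : 0 < √(Fa N (N - 1)) := Real.sqrt_pos.2 (Fa_pos (by omega))
  rw [W_zero_l, W_zero_l]
  field_simp

lemma R_diag {x y : ℕ} (hx : x < N) (hy : y < N) : R N x x y y = 1 := by
  have h1 := Fa_pos hx
  have h2 := Fa_pos hy
  unfold R
  rw [Nat.sub_self, Fa_zero, mul_one, div_self h2.ne', div_self h1.ne', mul_one]

lemma R_y0 {x b a : ℕ} (h : Ok N x b 0 a) : R N x b 0 a = W N 0 x / W N 0 b := by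
  obtain ⟨hx, hb, hy, ha, h1, h2⟩ := h
  have h3 := Fa_pos ha
  rw [← div_W hx hb]
  unfold R
  rw [Nat.sub_zero, Fa_zero, one_mul, div_self h3.ne', one_mul]

lemma R_aN {x b y : ℕ} (h : Ok N x b y (N - 1)) : R N x b y (N - 1) = W N 0 x / W N 0 b := by
  obtain ⟨hx, hb, hy, ha, h1, h2⟩ := h
  have h3 := Fa_pos ha
  have h4 := Fa_refl hy
  rw [← div_W hx hb]
  unfold R
  rw [mul_comm (Fa N y), h4, div_self h3.ne', one_mul]

lemma R_b0 {x y a : ℕ} (h : Ok N x 0 y a) : R N x 0 y a = W N 0 a / W N 0 y := by
  obtain ⟨hx, hb, hy, ha, h1, h2⟩ := h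
  have h3 : 0 < Fa N (a - y) := Fa_pos (by omega)
  have h4 := Fa_pos hy
  rw [← div_W ha hy]
  have e : x = a - y := by omega
  unfold R
  rw [e, Fa_zero, div_one]
  field_simp

lemma R_xN {b y a : ℕ} (h : Ok N (N - 1) b y a) : R N (N - 1) b y a = W N 0 a / W N 0 y := by
  obtain ⟨hx, hb, hy, ha, h1, h2⟩ := h
  have h3 : 0 < Fa N (a - y) := Fa_pos (by omega)
  have h4 := Fa_pos hy
  have h5 := Fa_pos hb
  have h6 : 0 < Fa N (N - 1) := Fa_pos (by omega)
  have e : a - y = N - 1 - b := by omega
  have h7 := Fa_refl hb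
  rw [← div_W ha hy]
  unfold R
  rw [← h7, e]
  have h8 : 0 < Fa N (N - 1 - b) := Fa_pos (by omega)
  field_simp

/-! ### the kinds of crossings -/

/-- marks of the ends of an upper strand -/
def Mark.isO : Mark → Bool
  | .free => true
  | .over => true
  | _ => false

/-- marks of the ends of a lower strand -/
def Mark.isU : Mark → Bool
  | .free => true
  | .under => true
  | _ => false

/-- ordinary crossings -/
def normal (o o' u u' : Mark) : Bool := o.isO && o'.isO && u.isU && u'.isU

/-- crossings which the open strand passes, over at the bottom, under at the top -/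
def pass (o o' u u' : Mark) : Bool :=
  (o == .bot && o' == .bot && u == u' && (u.isU || u == .top)) ||
  (u == .top && u' == .top && o == o' && o.isO)

/-- the first crossing where the strand from the bottom passes under -/
def endB (o o' u u' : Mark) : Bool :=
  o.isO && o'.isO && ((u == .bot && u'.isU) || (u' == .bot && u.isU))

/-- the last crossing where the strand to the top passes over -/
def endT (o o' u u' : Mark) : Bool :=
  u.isU && u'.isU && ((o == .top && o'.isO) || (o' == .top && o.isO))

/-- the number of free ends -/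
def fr (m m' : Mark) : ℕ := (if m = .free then 1 else 0) + (if m' = .free then 1 else 0)

/-- the contribution of an end of the open strand -/
noncomputable def er (f : ℕ) (t : Bool) : ℝ :=
  2 * lob (π / 6) * (if f = 2 then 2 else f + (if t then 1 else 0))

/-- the contribution of a crossing -/
noncomputable def krate (o o' u u' : Mark) : ℝ :=
  if normal o o' u u' then
    (if fr o o' + fr u u' = 4 then 8 * lob (π / 4) else
      2 * lob (π / 6) * (1 + (if fr o o' = 0 then 0 else 1) + (if fr u u' = 0 then 0 else 1)))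
  else if pass o o' u u' then 0
  else if endB o o' u u' then er (fr o o') (u == .under || u' == .under)
  else er (fr u u') (o == .over || o' == .over)

/-- is the kind of crossing allowed -/
def okk (o o' u u' : Mark) : Bool :=
  normal o o' u u' || pass o o' u u' || endB o o' u u' || endT o o' u u'

/-- `1` for the special crossings, `0` otherwise -/
def sp (o o' u u' : Mark) : ℕ := if endB o o' u u' || endT o o' u u' then 1 else 0

/-- an abstract combination -/
lemma comb {P Q E M A B sc : ℝ} (hQ : 0 < Q) (hE : 1 ≤ E) (hM : 1 ≤ M)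
    (h : (A - B ≤ sc - 1 ∧ P ≤ M * Q) ∨ (A - B ≤ sc ∧ P ≤ E * Q)) :
    P * M ^ A ≤ E * M ^ sc * (Q * M ^ B) := by
  have hM0 : 0 < M := by linarith
  have hA : 0 < M ^ A := Real.rpow_pos_of_pos hM0 _
  rcases h with ⟨h1, h2⟩ | ⟨h1, h2⟩
  · calc P * M ^ A ≤ M * Q * M ^ A := mul_le_mul_of_nonneg_right h2 hA.le
      _ = Q * M ^ (1 + A) := by rw [Real.rpow_add hM0, Real.rpow_one]; ring
      _ ≤ Q * M ^ (sc + B) := by
          refine mul_le_mul_of_nonneg_left ?_ hQ.le
          exact Real.rpow_le_rpow_of_exponent_le hM (by linarith)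
      _ = 1 * (M ^ sc * (Q * M ^ B)) := by rw [Real.rpow_add hM0]; ring
      _ ≤ E * (M ^ sc * (Q * M ^ B)) := by
          refine mul_le_mul_of_nonneg_right hE ?_
          have := Real.rpow_pos_of_pos hM0 sc
          have := Real.rpow_pos_of_pos hM0 B
          positivity
      _ = _ := by ring
  · calc P * M ^ A ≤ E * Q * M ^ A := mul_le_mul_of_nonneg_right h2 hA.le
      _ ≤ E * Q * M ^ (sc + B) := by
          refine mul_le_mul_of_nonneg_left ?_ (by positivity)
          exact Real.rpow_le_rpow_of_exponent_le hM (by linarith)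
      _ = _ := by rw [Real.rpow_add hM0]; ring

/-! ### asymptotic estimates -/

lemma facts (ε : ℝ) (hε : 0 < ε) : ∀ᶠ N : ℕ in atTop,
    (∀ k : ℕ, k < N → W N 0 k ≤ Real.exp (N * (lob (π / 6) / π + ε)) ∧
      (W N 0 k)⁻¹ ≤ Real.exp (N * (lob (π / 6) / π + ε))) ∧
    (∀ b n : ℕ, b + n < N → W N 0 (b + n) / (W N 0 b * W N 0 n) ≤
      Real.exp (N * (2 * lob (π / 6) / π + ε))) := by
  have hpi := Real.pi_pos
  have hcont : ∀ᶠ N : ℕ in atTop, |lob (π / N)| ≤ π * (ε / 8) := by
    have h1 : Tendsto (fun N : ℕ => π / (N : ℝ)) atTop (𝓝 0) :=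
      tendsto_const_div_atTop_nhds_zero_nat π
    have h2 : Tendsto (fun N : ℕ => |lob (π / (N : ℝ))|) atTop (𝓝 0) := by
      have := ((GapVol.lob_cont.tendsto 0).comp h1).abs
      rw [GapVol.lob_zero, abs_zero] at this
      exact this
    have h3 := h2.eventually (gt_mem_nhds (show (0 : ℝ) < π * (ε / 8) by positivity))
    filter_upwards [h3] with N hN using hN.le
  filter_upwards [Pool.Agent.W563.QAT.lb (ε / 8) (by positivity), eventually_ge_atTop 1, hcont]
    with N hL hN hc
  have hNr : (0 : ℝ) < N := by exact_mod_cast hN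
  obtain ⟨t1, t2⟩ := hL (N - 1) (by omega)
  have e3 : π * ((N - 1 : ℕ) : ℝ) / N = π - π / N := by
    rw [Nat.cast_sub hN]
    push_cast
    field_simp
  rw [e3, lob_pi_sub] at t2
  set s : ℝ := Real.log (Fa N (N - 1)) with hs
  have hs1 : |s| ≤ ε / 4 * N := by
    have h1 : |s| ≤ |s + N / π * -lob (π / N)| + |N / π * lob (π / N)| := by
      have := abs_add_le (s + N / π * -lob (π / N)) (N / π * lob (π / N))
      have e : s + N / π * -lob (π / N) + N / π * lob (π / N) = s := by ring
      rwa [e] at this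
    have h2 : |(N : ℝ) / π * lob (π / N)| ≤ ε / 8 * N := by
      rw [abs_mul, abs_of_pos (by positivity)]
      calc (N : ℝ) / π * |lob (π / N)| ≤ N / π * (π * (ε / 8)) :=
            mul_le_mul_of_nonneg_left hc (by positivity)
        _ = ε / 8 * N := by field_simp
    linarith
  have s3 := abs_le.1 hs1
  have lW : ∀ k : ℕ, k < N → Real.log (W N 0 k) = Real.log (Fa N k) - s / 2 := by
    intro k hk
    rw [W_zero_l, Real.log_div (Fa_pos hk).ne' (Real.sqrt_pos.2 t1).ne', Real.log_sqrt t1.le]
  have hεN : 0 < ε * N := by positivity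
  constructor
  · intro k hk
    obtain ⟨k1, k2⟩ := hL k hk
    have k3 := abs_le.1 k2
    have hW := W_pos (N := N) (l := 0) hk
    have m1 : lob (π * k / N) ≤ lob (π / 6) := lob_max _
    have m2 : -lob (π * k / N) ≤ lob (π / 6) := by
      rw [← lob_pi_sub]; exact lob_max _
    have n1 := mul_le_mul_of_nonneg_left m1 (show (0 : ℝ) ≤ N / π by positivity)
    have n2 := mul_le_mul_of_nonneg_left m2 (show (0 : ℝ) ≤ N / π by positivity)
    have e1 : (N : ℝ) * (lob (π / 6) / π + ε) = N / π * lob (π / 6) + ε * N := by ring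
    rw [← Real.log_le_iff_le_exp hW, ← Real.log_le_iff_le_exp (inv_pos.2 hW), Real.log_inv,
      lW k hk, e1]
    constructor <;> linarith
  · intro b n hbn
    obtain ⟨b1, b2⟩ := hL b (by omega)
    obtain ⟨n1, n2⟩ := hL n (by omega)
    obtain ⟨x1, x2⟩ := hL (b + n) hbn
    have b3 := abs_le.1 b2
    have n3 := abs_le.1 n2
    have x3 := abs_le.1 x2
    have wb := W_pos (N := N) (l := 0) (x := b) (by omega)
    have wn := W_pos (N := N) (l := 0) (x := n) (by omega)
    have wx := W_pos (N := N) (l := 0) hbn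
    have ht := tet (x := π * b / N) (y := π * n / N) (by positivity) (by positivity) (by
      rw [← add_div, ← mul_add, div_lt_iff₀ hNr]
      have : (b : ℝ) + n < N := by exact_mod_cast hbn
      exact mul_lt_mul_of_pos_left this hpi)
    have e2 : π * (b : ℝ) / N + π * (n : ℝ) / N = π * ((b + n : ℕ) : ℝ) / N := by
      push_cast; ring
    rw [e2] at ht
    have ht2 := mul_le_mul_of_nonneg_left ht (show (0 : ℝ) ≤ N / π by positivity)
    have e1 : (N : ℝ) * (2 * lob (π / 6) / π + ε) = N / π * (2 * lob (π / 6)) + ε * N := by ring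
    rw [← Real.log_le_iff_le_exp (by positivity), Real.log_div wx.ne' (by positivity),
      Real.log_mul wb.ne' wn.ne', lW _ hbn, lW b (by omega), lW n (by omega), e1]
    linarith

lemma lobm_nonneg : 0 ≤ lob (π / 6) := by
  have := lob_max 0
  rwa [GapVol.lob_zero] at this

lemma isO_cases {m : Mark} (h : m.isO = true) : m = .free ∨ m = .over := by
  cases m <;> simp_all [Mark.isO]

lemma isU_cases {m : Mark} (h : m.isU = true) : m = .free ∨ m = .under := by
  cases m <;> simp_all [Mark.isU]

/-- the ends of the open strand -/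
lemma sp_bd (ε : ℝ) (hε : 0 < ε) : ∀ᶠ N : ℕ in atTop, ∀ o o' t : Mark, o.isO = true →
    o'.isO = true → t.isU = true → ∀ b n : ℕ, b + n < N →
    W N 0 (b + n) / W N 0 b * (J N o' b * J N t n) ≤
      Real.exp (N * (er (fr o o') (t == .under) / (2 * π) + ε)) * J N o (b + n) := by
  have hpi := Real.pi_pos
  filter_upwards [facts (ε / 4) (by positivity), eventually_ge_atTop 1] with N hf hN
    o o' t ho ho' ht b n hbn
  obtain ⟨f1, f2⟩ := hf
  have hNr : (0 : ℝ) < N := by exact_mod_cast hN
  have wb := W_pos (N := N) (l := 0) (x := b) (by omega)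
  have wn := W_pos (N := N) (l := 0) (x := n) (by omega)
  have wx := W_pos (N := N) (l := 0) hbn
  have b1 := (f1 b (by omega)).2
  have n1 := (f1 n (by omega)).2
  have x1 := (f1 _ hbn).1
  have g := f2 b n hbn
  set H : ℝ := Real.exp (N * (lob (π / 6) / π + ε / 4)) with hH
  have hH0 : 0 < H := Real.exp_pos _
  have hm := lobm_nonneg
  -- comparison of the exponentials
  have c0 : (1 : ℝ) ≤ Real.exp (N * (0 / (2 * π) + ε)) := by
    rw [zero_div, zero_add]
    exact Real.one_le_exp (by positivity)
  have c1 : H ≤ Real.exp (N * (2 * lob (π / 6) / (2 * π) + ε)) := by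
    rw [hH]
    apply Real.exp_le_exp.2
    refine mul_le_mul_of_nonneg_left ?_ hNr.le
    have e : 2 * lob (π / 6) / (2 * π) = lob (π / 6) / π := by field_simp
    rw [e]
    linarith
  have c2 : H * H ≤ Real.exp (N * (2 * lob (π / 6) * 2 / (2 * π) + ε)) := by
    rw [hH, ← Real.exp_add]
    apply Real.exp_le_exp.2
    have e : 2 * lob (π / 6) * 2 / (2 * π) = 2 * (lob (π / 6) / π) := by field_simp
    rw [e]
    have : (N : ℝ) * (lob (π / 6) / π + ε / 4) + N * (lob (π / 6) / π + ε / 4) =
      N * (2 * (lob (π / 6) / π) + ε / 2) := by ring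
    rw [this]
    exact mul_le_mul_of_nonneg_left (by linarith) hNr.le
  have c3 : Real.exp (N * (2 * lob (π / 6) / π + ε / 4)) ≤
      Real.exp (N * (2 * lob (π / 6) * 2 / (2 * π) + ε)) := by
    apply Real.exp_le_exp.2
    refine mul_le_mul_of_nonneg_left ?_ hNr.le
    have e : 2 * lob (π / 6) * 2 / (2 * π) = 2 * lob (π / 6) / π := by field_simp
    rw [e]
    linarith
  set X := W N 0 (b + n) with hX
  set B := W N 0 b with hB
  set T := W N 0 n with hT
  rcases isO_cases ho with rfl | rfl <;> rcases isO_cases ho' with rfl | rfl <;>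
    rcases isU_cases ht with rfl | rfl
  · -- free free free
    have e : er (fr .free .free) (Mark.free == Mark.under) = 2 * lob (π / 6) * 2 := by
      simp [er, fr]
    rw [e]
    simp only [J, Mark.w, zpow_zero, mul_one]
    refine le_trans ?_ c2
    rw [div_eq_mul_inv]
    exact mul_le_mul x1 b1 (by positivity) hH0.le
  · have e : er (fr .free .free) (Mark.under == Mark.under) = 2 * lob (π / 6) * 2 := by
      simp [er, fr]
    rw [e]
    simp only [J, Mark.w, zpow_zero, mul_one, one_mul, zpow_neg_one]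
    refine le_trans (le_of_eq ?_) (g.trans c3)
    rw [← hT]
    field_simp
  · have e : er (fr .free .over) (Mark.free == Mark.under) = 2 * lob (π / 6) := by
      simp [er, fr]
    rw [e]
    simp only [J, Mark.w, zpow_zero, mul_one, zpow_one]
    rw [← hB, div_mul_cancel₀ _ wb.ne']
    exact x1.trans c1
  · have e : er (fr .free .over) (Mark.under == Mark.under) = 2 * lob (π / 6) * 2 := by
      simp [er, fr]
    rw [e]
    simp only [J, Mark.w, zpow_zero, mul_one, zpow_one, zpow_neg_one]
    rw [← hB, ← hT, ← mul_assoc, div_mul_cancel₀ _ wb.ne']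
    exact le_trans (mul_le_mul x1 n1 (by positivity) hH0.le) c2
  · have e : er (fr .over .free) (Mark.free == Mark.under) = 2 * lob (π / 6) := by
      simp [er, fr]
    rw [e]
    simp only [J, Mark.w, zpow_zero, mul_one, zpow_one]
    rw [← hX, div_eq_mul_inv, mul_comm]
    exact mul_le_mul_of_nonneg_right (b1.trans c1) wx.le
  · have e : er (fr .over .free) (Mark.under == Mark.under) = 2 * lob (π / 6) * 2 := by
      simp [er, fr]
    rw [e]
    simp only [J, Mark.w, zpow_zero, one_mul, zpow_one, zpow_neg_one]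
    rw [← hX, ← hT]
    have e2 : X / B * T⁻¹ = B⁻¹ * T⁻¹ * X := by ring
    rw [e2]
    exact mul_le_mul_of_nonneg_right ((mul_le_mul b1 n1 (by positivity) hH0.le).trans c2) wx.le
  · have e : er (fr .over .over) (Mark.free == Mark.under) = 0 := by
      simp [er, fr]
    rw [e]
    simp only [J, Mark.w, zpow_zero, mul_one, zpow_one]
    rw [← hX, ← hB, div_mul_cancel₀ _ wb.ne']
    exact le_mul_of_one_le_left wx.le c0
  · have e : er (fr .over .over) (Mark.under == Mark.under) = 2 * lob (π / 6) := by
      simp [er, fr]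
    rw [e]
    simp only [J, Mark.w, zpow_one, zpow_neg_one]
    rw [← hX, ← hB, ← hT]
    have e2 : X / B * (B * T⁻¹) = T⁻¹ * X := by field_simp
    rw [e2]
    exact mul_le_mul_of_nonneg_right (n1.trans c1) wx.le

lemma norm_PP_R {a b x y : Fin N} (h : Ok N x b y a) : ‖PP N (a, b) (x, y)‖ = R N x b y a := by
  obtain ⟨h1, h2, h3, h4, h5, h6⟩ := h
  rw [norm_PP (a, b) (x, y) h5 h6]
  rfl

/-- ordinary crossings -/
lemma ent_normal (ε : ℝ) (hε : 0 < ε) : ∀ᶠ N : ℕ in atTop, ∀ o o' u u' : Mark,
    normal o o' u u' = true → ∀ x b y a : ℕ, Ok N x b y a →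
    R N x b y a * (J N o' b * J N u' a) ≤
      Real.exp (N * (krate o o' u u' / (2 * π) + ε)) * (J N o x * J N u y) := by
  filter_upwards [alt_ent ε hε] with N hA o o' u u' hn x b y a hok
  have h0 := hok
  obtain ⟨h1, h2, h3, h4, h5, h6⟩ := h0
  have key := hA (o == .over) (o' == .over) (u == .under) (u' == .under) ⟨a, h4⟩ ⟨b, h2⟩ ⟨x, h1⟩
    ⟨y, h3⟩
  rw [norm_PP_R (a := ⟨a, h4⟩) (b := ⟨b, h2⟩) (x := ⟨x, h1⟩) (y := ⟨y, h3⟩) hok] at key
  have hk : crt (o == .over) (o' == .over) (u == .under) (u' == .under) = krate o o' u u' := by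
    unfold normal at hn
    simp only [Bool.and_eq_true] at hn
    obtain ⟨⟨⟨n1, n2⟩, n3⟩, n4⟩ := hn
    rcases isO_cases n1 with rfl | rfl <;> rcases isO_cases n2 with rfl | rfl <;>
      rcases isU_cases n3 with rfl | rfl <;> rcases isU_cases n4 with rfl | rfl <;>
      simp [crt, krate, normal, Mark.isO, Mark.isU, fr]
  rw [hk] at key
  have j1 : ∀ m : Mark, m.isO = true → ∀ k : ℕ, J N m k = W N 0 k ^ (mk (m == .over)) := by
    intro m hm k
    rcases isO_cases hm with rfl | rfl <;> simp [J, Mark.w, mk]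
  have j2 : ∀ m : Mark, m.isU = true → ∀ k : ℕ, J N m k = W N 0 k ^ (-mk (m == .under)) := by
    intro m hm k
    rcases isU_cases hm with rfl | rfl <;> simp [J, Mark.w, mk]
  unfold normal at hn
  simp only [Bool.and_eq_true] at hn
  obtain ⟨⟨⟨n1, n2⟩, n3⟩, n4⟩ := hn
  rw [j1 o n1, j1 o' n2, j2 u n3, j2 u' n4, mul_comm (W N 0 b ^ _)]
  exact key

lemma krate_nonneg (o o' u u' : Mark) : 0 ≤ krate o o' u u' := by
  have hm := lobm_nonneg
  have h4 : 0 ≤ lob (π / 4) :=
    EvenVol.LobIneq.lob_nonneg (by have := Real.pi_pos; positivity) (by linarith [Real.pi_pos])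
  have he : ∀ f t, 0 ≤ er f t := by
    intro f t
    unfold er
    positivity
  unfold krate
  split_ifs
  · positivity
  · positivity
  · positivity
  · positivity
  · positivity
  · exact le_rfl
  · exact he _ _
  · exact he _ _

/-- the dual mark -/
def Mark.dual : Mark → Mark
  | .free => .free
  | .over => .under
  | .under => .over
  | .bot => .top
  | .top => .bot

lemma J_dual {m : Mark} {x : ℕ} : J N m.dual x = (J N m x)⁻¹ := by
  cases m <;> simp [J, Mark.dual, Mark.w]

lemma J_refl {m : Mark} {x : ℕ} (hx : x < N) : J N m (N - 1 - x) = (J N m x)⁻¹ := by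
  have h : J N m x * J N m (N - 1 - x) = 1 := by
    unfold J
    rw [← mul_zpow, W_refl hx, _root_.one_zpow]
  exact eq_inv_of_mul_eq_one_right h

lemma v_isO {m : Mark} (h : m.isO = true) : m.v = 0 := by
  rcases isO_cases h with rfl | rfl <;> rfl

lemma v_isU {m : Mark} (h : m.isU = true) : m.v = 0 := by
  rcases isU_cases h with rfl | rfl <;> rfl

lemma krate_endB {o o' u u' : Mark} (h : endB o o' u u' = true) :
    krate o o' u u' = er (fr o o') (u == .under || u' == .under) := by
  have h2 := h
  unfold endB at h2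
  simp only [Bool.and_eq_true, Bool.or_eq_true, beq_iff_eq] at h2
  obtain ⟨⟨n1, n2⟩, n3⟩ := h2
  have a1 : normal o o' u u' = false := by
    rcases n3 with ⟨rfl, -⟩ | ⟨rfl, -⟩ <;> simp [normal, Mark.isU]
  have a2 : pass o o' u u' = false := by
    rcases isO_cases n1 with rfl | rfl <;> rcases n3 with ⟨rfl, -⟩ | ⟨rfl, -⟩ <;> simp [pass]
  unfold krate
  rw [a1, a2, h]
  simp

lemma krate_endT {o o' u u' : Mark} (h : endT o o' u u' = true) :
    krate o o' u u' = er (fr u u') (o == .over || o' == .over) := by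
  have h2 := h
  unfold endT at h2
  simp only [Bool.and_eq_true, Bool.or_eq_true, beq_iff_eq] at h2
  obtain ⟨⟨n1, n2⟩, n3⟩ := h2
  have a1 : normal o o' u u' = false := by
    rcases n3 with ⟨rfl, -⟩ | ⟨rfl, -⟩ <;> simp [normal, Mark.isO]
  have a2 : pass o o' u u' = false := by
    rcases isU_cases n1 with rfl | rfl <;> rcases n3 with ⟨rfl, -⟩ | ⟨rfl, -⟩ <;> simp [pass]
  have a3 : endB o o' u u' = false := by
    rcases n3 with ⟨rfl, -⟩ | ⟨rfl, -⟩ <;> simp [endB, Mark.isO]
  unfold krate
  rw [a1, a2, a3]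
  simp

lemma dual_isO {m : Mark} (h : m.isU = true) : m.dual.isO = true := by
  rcases isU_cases h with rfl | rfl <;> rfl

lemma dual_isU {m : Mark} (h : m.isO = true) : m.dual.isU = true := by
  rcases isO_cases h with rfl | rfl <;> rfl

lemma fr_dual (m m' : Mark) : fr m'.dual m.dual = fr m m' := by
  cases m <;> cases m' <;> rfl

/-- **the weighted entries** -/
theorem ent (ε : ℝ) (hε : 0 < ε) : ∀ᶠ N : ℕ in atTop, ∃ M : ℝ, 1 ≤ M ∧ ∀ o o' u u' : Mark,
    okk o o' u u' = true → ∀ x b y a : ℕ, Ok N x b y a →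
    R N x b y a * (om N M o' b * om N M u' a) ≤
      Real.exp (N * (krate o o' u u' / (2 * π) + ε)) *
        M ^ ((sp o o' u u' : ℝ) * (((N : ℝ) - 1) / 2)) * (om N M o x * om N M u y) := by
  have hpi := Real.pi_pos
  filter_upwards [ent_normal ε hε, sp_bd ε hε, facts ε hε, eventually_ge_atTop 1]
    with N hnor hsp hfac hN
  obtain ⟨f1, -⟩ := hfac
  have hNr : (0 : ℝ) < N := by exact_mod_cast hN
  have hN1 : (1 : ℝ) ≤ N := by exact_mod_cast hN
  set H : ℝ := Real.exp (N * (lob (π / 6) / π + ε)) with hH
  have hH0 : 0 < H := Real.exp_pos _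
  have hH1 : 1 ≤ H := by
    have := lobm_nonneg
    rw [hH]
    exact Real.one_le_exp (by positivity)
  set R0 : ℝ := Real.exp (N * (krate .free .free .free .free / (2 * π) + ε)) with hR0
  have hR01 : 1 ≤ R0 := by
    have := krate_nonneg .free .free .free .free
    rw [hR0]
    exact Real.one_le_exp (by positivity)
  set M : ℝ := R0 * (H * H * (H * H)) with hM
  have hHH : 1 ≤ H * H * (H * H) := by
    have h2 : 1 ≤ H * H := one_le_mul_of_one_le_of_one_le hH1 hH1
    exact one_le_mul_of_one_le_of_one_le h2 h2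
  have hM1 : 1 ≤ M := one_le_mul_of_one_le_of_one_le hR01 hHH
  have hJ1 : ∀ m : Mark, ∀ k : ℕ, k < N → J N m k ≤ H ∧ (J N m k)⁻¹ ≤ H := by
    intro m k hk
    obtain ⟨g1, g2⟩ := f1 k hk
    cases m <;> simp [J, Mark.w, g1, g2, hH1]
  -- the crude bound
  have hcrude : ∀ o o' u u' : Mark, ∀ x b y a : ℕ, Ok N x b y a →
      R N x b y a * (J N o' b * J N u' a) ≤ M * (J N o x * J N u y) := by
    intro o o' u u' x b y a hok
    have hr := hnor .free .free .free .free rfl x b y a hok
    simp only [J, Mark.w, zpow_zero, mul_one] at hr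
    obtain ⟨h1, h2, h3, h4, h5, h6⟩ := hok
    have p1 := J_pos (N := N) (m := o) h1
    have p2 := J_pos (N := N) (m := o') h2
    have p3 := J_pos (N := N) (m := u) h3
    have p4 := J_pos (N := N) (m := u') h4
    have q1 := (hJ1 o x h1).2
    have q2 := (hJ1 o' b h2).1
    have q3 := (hJ1 u y h3).2
    have q4 := (hJ1 u' a h4).1
    have r1 : 1 ≤ H * J N o x := by
      calc (1 : ℝ) = (J N o x)⁻¹ * J N o x := (inv_mul_cancel₀ p1.ne').symm
        _ ≤ _ := mul_le_mul_of_nonneg_right q1 p1.le
    have r3 : 1 ≤ H * J N u y := by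
      calc (1 : ℝ) = (J N u y)⁻¹ * J N u y := (inv_mul_cancel₀ p3.ne').symm
        _ ≤ _ := mul_le_mul_of_nonneg_right q3 p3.le
    calc R N x b y a * (J N o' b * J N u' a) ≤ R0 * (H * H) :=
          mul_le_mul hr (mul_le_mul q2 q4 p4.le hH0.le) (by positivity) (by positivity)
      _ = R0 * (H * H) * (1 * 1) := by ring
      _ ≤ R0 * (H * H) * ((H * J N o x) * (H * J N u y)) := by
          refine mul_le_mul_of_nonneg_left ?_ (by positivity)
          exact mul_le_mul r1 r3 zero_le_one (by positivity)
      _ = _ := by rw [hM]; ring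
  refine ⟨M, hM1, fun o o' u u' hk x b y a hok => ?_⟩
  have hE1 : 1 ≤ Real.exp (N * (krate o o' u u' / (2 * π) + ε)) := by
    have := krate_nonneg o o' u u'
    exact Real.one_le_exp (by positivity)
  have hM0 : 0 < M := by linarith
  set c : ℝ := ((N : ℝ) - 1) / 2 with hc
  have hcr := hcrude o o' u u' x b y a hok
  have hok' := hok
  obtain ⟨h1, h2, h3, h4, h5, h6⟩ := hok'
  have hQ : 0 < J N o x * J N u y := mul_pos (J_pos h1) (J_pos h3)
  have hmain : (((b : ℝ) - c) * (o'.v : ℝ) + ((a : ℝ) - c) * (u'.v : ℝ) -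
      (((x : ℝ) - c) * (o.v : ℝ) + ((y : ℝ) - c) * (u.v : ℝ)) ≤ (sp o o' u u' : ℝ) * c - 1 ∧
      R N x b y a * (J N o' b * J N u' a) ≤ M * (J N o x * J N u y)) ∨
      (((b : ℝ) - c) * (o'.v : ℝ) + ((a : ℝ) - c) * (u'.v : ℝ) -
      (((x : ℝ) - c) * (o.v : ℝ) + ((y : ℝ) - c) * (u.v : ℝ)) ≤ (sp o o' u u' : ℝ) * c ∧
      R N x b y a * (J N o' b * J N u' a) ≤
        Real.exp (N * (krate o o' u u' / (2 * π) + ε)) * (J N o x * J N u y)) := by
    have hab : (a : ℝ) + b = x + y := by exact_mod_cast h5
    have hya : (y : ℝ) ≤ a := by exact_mod_cast h6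
    have hc0 : 0 ≤ c := by rw [hc]; linarith
    have hs0 : (0 : ℝ) ≤ (sp o o' u u' : ℝ) * c := by positivity
    unfold okk at hk
    rw [Bool.or_eq_true, Bool.or_eq_true, Bool.or_eq_true] at hk
    rcases hk with ((hk | hk) | hk) | hk
    · -- ordinary
      right
      refine ⟨?_, hnor o o' u u' hk x b y a hok⟩
      unfold normal at hk
      simp only [Bool.and_eq_true] at hk
      obtain ⟨⟨⟨n1, n2⟩, n3⟩, n4⟩ := hk
      rw [v_isO n1, v_isO n2, v_isU n3, v_isU n4]
      simp only [Int.cast_zero, mul_zero, add_zero, sub_zero]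
      exact hs0
    · -- passing
      unfold pass at hk
      simp only [Bool.and_eq_true, Bool.or_eq_true, beq_iff_eq] at hk
      have hpass : ∀ {e : ℝ}, e ≤ 0 → (a ≠ y → e ≤ -1) →
          (a = y → R N x b y a * (J N o' b * J N u' a) ≤
            Real.exp (N * (krate o o' u u' / (2 * π) + ε)) * (J N o x * J N u y)) →
          ((e ≤ (sp o o' u u' : ℝ) * c - 1 ∧
            R N x b y a * (J N o' b * J N u' a) ≤ M * (J N o x * J N u y)) ∨
          (e ≤ (sp o o' u u' : ℝ) * c ∧ R N x b y a * (J N o' b * J N u' a) ≤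
            Real.exp (N * (krate o o' u u' / (2 * π) + ε)) * (J N o x * J N u y))) := by
        intro e g1 g2 g3
        by_cases hay : a = y
        · right
          exact ⟨by linarith, g3 hay⟩
        · left
          exact ⟨by have := g2 hay; linarith, hcr⟩
      have hn1 : a ≠ y → (y : ℝ) + 1 ≤ a := by
        intro h
        have : y + 1 ≤ a := by omega
        exact_mod_cast this
      rcases hk with ⟨⟨⟨rfl, rfl⟩, rfl⟩, hu⟩ | ⟨⟨⟨rfl, rfl⟩, rfl⟩, ho⟩
      · have hv : (u.v : ℝ) ≤ 0 := by
          rcases hu with hu | rfl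
          · rw [v_isU hu]; simp
          · simp [Mark.v]
        have hv1 : (Mark.bot.v : ℝ) = 1 := by simp [Mark.v]
        apply hpass
        · rw [hv1]
          have : ((b : ℝ) - c) * 1 + ((a : ℝ) - c) * (u.v : ℝ) - (((x : ℝ) - c) * 1 +
              ((y : ℝ) - c) * (u.v : ℝ)) = -((a : ℝ) - y) + ((a : ℝ) - y) * (u.v : ℝ) := by
            have hx : (x : ℝ) = a + b - y := by linarith
            rw [hx]; ring
          rw [this]
          nlinarith
        · intro hay
          have h7 := hn1 hay
          rw [hv1]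
          have : ((b : ℝ) - c) * 1 + ((a : ℝ) - c) * (u.v : ℝ) - (((x : ℝ) - c) * 1 +
              ((y : ℝ) - c) * (u.v : ℝ)) = -((a : ℝ) - y) + ((a : ℝ) - y) * (u.v : ℝ) := by
            have hx : (x : ℝ) = a + b - y := by linarith
            rw [hx]; ring
          rw [this]
          nlinarith
        · intro hay
          have hxb : x = b := by omega
          subst hay
          subst hxb
          rw [R_diag h1 h3, one_mul]
          exact le_mul_of_one_le_left hQ.le hE1
      · have hv : (o.v : ℝ) = 0 := by rw [v_isO ho]; simp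
        have hv1 : (Mark.top.v : ℝ) = -1 := by simp [Mark.v]
        apply hpass
        · rw [hv1, hv]
          linarith
        · intro hay
          have h7 := hn1 hay
          rw [hv1, hv]
          linarith
        · intro hay
          have hxb : x = b := by omega
          subst hay
          subst hxb
          rw [R_diag h1 h3, one_mul]
          exact le_mul_of_one_le_left hQ.le hE1
    · -- the end of the strand from the bottom
      have hs1 : (sp o o' u u' : ℝ) = 1 := by simp [sp, hk]
      have hkr := krate_endB hk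
      rw [hs1, one_mul, hkr]
      unfold endB at hk
      simp only [Bool.and_eq_true, Bool.or_eq_true, beq_iff_eq] at hk
      obtain ⟨⟨n1, n2⟩, n3⟩ := hk
      have v1 : (o.v : ℝ) = 0 := by rw [v_isO n1]; simp
      have v2 : (o'.v : ℝ) = 0 := by rw [v_isO n2]; simp
      have v3 : (Mark.bot.v : ℝ) = 1 := by simp [Mark.v]
      rcases n3 with ⟨rfl, n4⟩ | ⟨rfl, n4⟩
      · have v4 : (u'.v : ℝ) = 0 := by rw [v_isU n4]; simp
        rw [v1, v2, v3, v4]
        rcases Nat.eq_zero_or_pos y with hy | hy
        · right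
          subst hy
          refine ⟨by simp, ?_⟩
          rw [R_y0 hok]
          have hx : x = b + a := by omega
          have key := hsp o o' u' n1 n2 n4 b a (by omega)
          rw [← hx] at key
          have e1 : J N Mark.bot 0 = 1 := by simp [J, Mark.w]
          rw [e1, mul_one]
          exact key
        · left
          refine ⟨?_, hcr⟩
          have : (1 : ℝ) ≤ y := by exact_mod_cast hy
          linarith
      · have v4 : (u.v : ℝ) = 0 := by rw [v_isU n4]; simp
        rw [v1, v2, v3, v4]
        by_cases ha : a = N - 1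
        · right
          have hcast : ((N - 1 : ℕ) : ℝ) = (N : ℝ) - 1 := by
            rw [Nat.cast_sub hN]; simp
          subst ha
          refine ⟨by rw [hcast, hc]; linarith, ?_⟩
          rw [R_aN hok]
          have hx : x = b + (N - 1 - y) := by omega
          have key := hsp o o' u n1 n2 n4 b (N - 1 - y) (by omega)
          rw [← hx, J_refl h3] at key
          have e1 : J N Mark.bot (N - 1) = 1 := by simp [J, Mark.w]
          have p3 := J_pos (N := N) (m := u) h3
          have key2 := mul_le_mul_of_nonneg_right key p3.le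
          rw [e1, mul_one]
          have e2 : (Mark.bot == Mark.under) = false := by decide
          rw [e2, Bool.or_false]
          refine le_trans (le_of_eq ?_) (key2.trans (le_of_eq ?_))
          · field_simp
          · ring
        · left
          refine ⟨?_, hcr⟩
          have : a + 2 ≤ N + 0 := by omega
          have h8 : (a : ℝ) + 2 ≤ N := by exact_mod_cast this
          rw [hc]
          linarith
    · -- the end of the strand to the top
      have hs1 : (sp o o' u u' : ℝ) = 1 := by simp [sp, hk]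
      have hkr := krate_endT hk
      rw [hs1, one_mul, hkr]
      unfold endT at hk
      simp only [Bool.and_eq_true, Bool.or_eq_true, beq_iff_eq] at hk
      obtain ⟨⟨n1, n2⟩, n3⟩ := hk
      have v1 : (u.v : ℝ) = 0 := by rw [v_isU n1]; simp
      have v2 : (u'.v : ℝ) = 0 := by rw [v_isU n2]; simp
      have v3 : (Mark.top.v : ℝ) = -1 := by simp [Mark.v]
      have pu := J_pos (N := N) (m := u) h3
      have pu' := J_pos (N := N) (m := u') h4
      have hya2 : a = y + (a - y) := by omega
      have hlt : y + (a - y) < N := by omega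
      rcases n3 with ⟨rfl, n4⟩ | ⟨rfl, n4⟩
      · have v4 : (o'.v : ℝ) = 0 := by rw [v_isO n4]; simp
        rw [v1, v2, v3, v4]
        by_cases hx : x = N - 1
        · right
          have hcast : ((N - 1 : ℕ) : ℝ) = (N : ℝ) - 1 := by
            rw [Nat.cast_sub hN]; simp
          subst hx
          refine ⟨by rw [hcast, hc]; linarith, ?_⟩
          rw [R_xN hok]
          have hb : b = N - 1 - (a - y) := by omega
          have key := hsp u'.dual u.dual o'.dual (dual_isO n2) (dual_isO n1) (dual_isU n4) y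
            (a - y) hlt
          rw [← hya2, J_dual, J_dual, J_dual, fr_dual] at key
          have e3 : (o'.dual == Mark.under) = (Mark.top == Mark.over || o' == Mark.over) := by
            rcases isO_cases n4 with rfl | rfl <;> decide
          rw [e3] at key
          have e1 : J N Mark.top (N - 1) = 1 := by simp [J, Mark.w]
          have e4 : J N o' b = (J N o' (a - y))⁻¹ := by
            rw [hb]; exact J_refl (by omega)
          rw [e1, one_mul, e4]
          have key2 := mul_le_mul_of_nonneg_right key (mul_pos pu pu').le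
          refine le_trans (le_of_eq ?_) (key2.trans (le_of_eq ?_))
          · field_simp
          · field_simp
        · left
          refine ⟨?_, hcr⟩
          have : x + 2 ≤ N + 0 := by omega
          have h8 : (x : ℝ) + 2 ≤ N := by exact_mod_cast this
          rw [hc]
          linarith
      · have v4 : (o.v : ℝ) = 0 := by rw [v_isO n4]; simp
        rw [v1, v2, v3, v4]
        rcases Nat.eq_zero_or_pos b with hb | hb
        · right
          subst hb
          refine ⟨by simp, ?_⟩
          rw [R_b0 hok]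
          have hx : x = a - y := by omega
          have key := hsp u'.dual u.dual o.dual (dual_isO n2) (dual_isO n1) (dual_isU n4) y
            (a - y) hlt
          rw [← hya2, J_dual, J_dual, J_dual, fr_dual] at key
          have e3 : (o.dual == Mark.under) = (o == Mark.over || Mark.top == Mark.over) := by
            rcases isO_cases n4 with rfl | rfl <;> decide
          rw [e3] at key
          have e1 : J N Mark.top 0 = 1 := by simp [J, Mark.w]
          have p1 := J_pos (N := N) (m := o) h1
          rw [e1, one_mul]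
          rw [← hx] at key
          have key2 := mul_le_mul_of_nonneg_right key (mul_pos (mul_pos pu pu') p1).le
          refine le_trans (le_of_eq ?_) (key2.trans (le_of_eq ?_))
          · field_simp
          · field_simp
        · left
          refine ⟨?_, hcr⟩
          have : (1 : ℝ) ≤ b := by exact_mod_cast hb
          linarith
  have hfin := comb hQ hE1 hM1 hmain
  refine le_trans (le_of_eq ?_) (hfin.trans (le_of_eq ?_))
  · unfold om
    rw [← hc, Real.rpow_add hM0]
    ring
  · unfold om
    rw [← hc, Real.rpow_add hM0]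
    ring

end Pool.Agent.K7.H9.VC.Mrk
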