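import Pool.Agent.K7.H9.VC.Marks

/-!
# Marked diagrams: the growth of the Kashaev invariant by the kinds of the crossings
-/

set_option autoImplicit false

namespace Pool.Agent.K7.H9.VC.Mrk

open Finset Filter Topology Pool.Agent.H550R3.Jones Pool.Agent.W715.VC Pool.Agent.W709.QAT
open Pool.Agent.W28.QAT (rate_nonneg)
open Pool.Agent.K7.H9.VC.Gen
open GapVol (lob)
open scoped Real

variable {N : ℕ}

/-- pieces of marked diagrams; `o`, `o'` are the marks of the two ends of the upper strand at a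
crossing, `u`, `u'` of the lower strand -/
inductive MR
  | cup (i : ℕ) (e : Mark)
  | cap (i : ℕ)
  | cross (i : ℕ) (σ : Bool) (o o' u u' : Mark)
  | twist (i : ℕ) (σ : Bool) (m : ℕ)

/-- the piece without the marks -/
def MR.piece : MR → Piece
  | .cup i _ => .cup i
  | .cap i => .cap i
  | .cross i σ _ _ _ _ => .twist i σ 1
  | .twist i σ m => .twist i σ m

/-- the marks above a piece, given the marks below -/
def MR.step : MR → List Mark → Option (List Mark)
  | .cup i e, ms => if i ≤ ms.length then some (ms.take i ++ e :: e :: ms.drop i) else none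
  | .cap i, ms => match ms.drop i with
      | a :: b :: r => if a = b then some (ms.take i ++ r) else none
      | _ => none
  | .cross i σ o o' u u', ms => match ms.drop i with
      | a :: b :: r => if okk o o' u u' = true then
          (if σ then (if a = o ∧ b = u then some (ms.take i ++ u' :: o' :: r) else none)
          else (if a = u ∧ b = o then some (ms.take i ++ o' :: u' :: r) else none)) else none
      | _ => none
  | .twist i _ _, ms => match ms.drop i with
      | a :: b :: _ => if a = .free ∧ b = .free then some ms else none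
      | _ => none

/-- the rate of a piece -/
noncomputable def MR.rt : MR → ℝ
  | .cross _ _ o o' u u' => krate o o' u u'
  | .twist _ _ m => rate m
  | _ => 0

/-- the number of special crossings -/
def MR.sp : MR → ℕ
  | .cross _ _ o o' u u' => Mrk.sp o o' u u'
  | _ => 0

/-- the polynomial part of the bound of a piece -/
noncomputable def MR.kon : MR → ℝ
  | .twist _ _ m => ((m : ℝ) + 1) ^ 2
  | _ => 1

/-- the bound of a piece -/
noncomputable def MR.cost (N : ℕ) (ε M : ℝ) (P : MR) : ℝ :=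
  (N : ℝ) ^ 2 * (P.kon * Real.exp (N * (P.rt / (2 * π) + ε)) *
    M ^ ((P.sp : ℝ) * (((N : ℝ) - 1) / 2)))

lemma rt_nonneg (P : MR) : 0 ≤ P.rt := by
  cases P with
  | cup i e => exact le_rfl
  | cap i => exact le_rfl
  | cross i σ o o' u u' => exact krate_nonneg o o' u u'
  | twist i σ m => exact rate_nonneg m

lemma kon_pos (P : MR) : 0 < P.kon := by
  cases P <;> unfold MR.kon <;> positivity

lemma cost_pos (hN : 1 ≤ N) (ε : ℝ) {M : ℝ} (hM : 1 ≤ M) (P : MR) : 0 < P.cost N ε M := by
  have hNr : (0 : ℝ) < N := by exact_mod_cast hN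
  have := kon_pos P
  have := Real.rpow_pos_of_pos (show (0 : ℝ) < M by linarith) ((P.sp : ℝ) * (((N : ℝ) - 1) / 2))
  unfold MR.cost
  positivity

/-- the hypothesis on the entries -/
def Ent (N : ℕ) (ε M : ℝ) : Prop := ∀ o o' u u' : Mark,
    okk o o' u u' = true → ∀ x b y a : ℕ, Ok N x b y a →
    R N x b y a * (om N M o' b * om N M u' a) ≤
      Real.exp (N * (krate o o' u u' / (2 * π) + ε)) *
        M ^ ((sp o o' u u' : ℝ) * (((N : ℝ) - 1) / 2)) * (om N M o x * om N M u y)

lemma ent_PP {ε M : ℝ} (hM : 1 ≤ M) (hE : Ent N ε M) {o o' u u' : Mark}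
    (hk : okk o o' u u' = true) (a b x y : Fin N) :
    ‖PP N (a, b) (x, y)‖ * (om N M u' a * om N M o' b) ≤
      Real.exp (N * (krate o o' u u' / (2 * π) + ε)) *
        M ^ ((sp o o' u u' : ℝ) * (((N : ℝ) - 1) / 2)) * (om N M o x * om N M u y) := by
  have p1 := om_pos hM o x x.2
  have p2 := om_pos hM u y y.2
  by_cases h : PP N (a, b) (x, y) = 0
  · have := Real.rpow_pos_of_pos (show (0 : ℝ) < M by linarith)
      ((sp o o' u u' : ℝ) * (((N : ℝ) - 1) / 2))
    rw [h, norm_zero, zero_mul]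
    positivity
  · obtain ⟨e1, e2⟩ := pp_zero h
    have hok : Ok N x b y a := ⟨x.2, b.2, y.2, a.2, e1, e2⟩
    rw [norm_PP_R hok, mul_comm (om N M u' a)]
    exact hE o o' u u' hk x b y a hok

lemma ent_QQ {ε M : ℝ} (hM : 1 ≤ M) (hE : Ent N ε M) {o o' u u' : Mark}
    (hk : okk o o' u u' = true) (a b x y : Fin N) :
    ‖QQ N (a, b) (x, y)‖ * (om N M o' a * om N M u' b) ≤
      Real.exp (N * (krate o o' u u' / (2 * π) + ε)) *
        M ^ ((sp o o' u u' : ℝ) * (((N : ℝ) - 1) / 2)) * (om N M u x * om N M o y) := by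
  have p1 := om_pos hM u x x.2
  have p2 := om_pos hM o y y.2
  have h0 : 0 < N := lt_of_le_of_lt (Nat.zero_le _) a.2
  rw [norm_QQ' h0]
  dsimp only
  by_cases h : PP N (y, x) (b, a) = 0
  · have := Real.rpow_pos_of_pos (show (0 : ℝ) < M by linarith)
      ((sp o o' u u' : ℝ) * (((N : ℝ) - 1) / 2))
    rw [h, norm_zero, zero_mul]
    positivity
  · obtain ⟨e1, e2⟩ := pp_zero h
    dsimp only at e1 e2
    have hok : Ok N y a x b := ⟨y.2, a.2, x.2, b.2, by omega, by omega⟩
    have hR : ‖PP N (y, x) (b, a)‖ = R N y a x b := by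
      rw [norm_PP (y, x) (b, a) e1 e2]
      dsimp only
      unfold R
      have e3 : (y : ℕ) - a = b - x := by omega
      rw [e3]
      have q1 := Fa_pos (N := N) y.2
      have q2 := Fa_pos (N := N) x.2
      have q3 := Fa_pos (N := N) a.2
      have q4 := Fa_pos (N := N) b.2
      have q5 : 0 < Fa N ((b : ℕ) - x) := Fa_pos (by have := b.2; omega)
      field_simp
    rw [hR, mul_comm (om N M u x)]
    exact hE o o' u u' hk y a x b hok

lemma mstep_bd {ε C M : ℝ} (hN : 1 ≤ N) (hε : 0 ≤ ε) (hM : 1 ≤ M)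
    (hTW : ∀ m : ℕ, ∀ p q : Fin N × Fin N,
      ‖(PP N ^ m) p q‖ ≤ Pool.Agent.W28.QAT.wt N ε m ∧ ‖(QQ N ^ m) p q‖ ≤ Pool.Agent.W28.QAT.wt N ε m)
    (hE : Ent N ε M)
    (hC : 0 ≤ C) (P : MR) {ms ms' : List Mark} (hs : P.step ms = some ms') {f : List (Fin N) → ℂ}
    (hf : Gen.Bd (om N M) C ms f) :
    Gen.Bd (om N M) (P.cost N ε M * C) ms' (P.piece.act N (rt N) f) := by
  have hNr : (1 : ℝ) ≤ N := by exact_mod_cast hN
  have hpi := Real.pi_pos
  have hN1 : (1 : ℝ) ≤ (N : ℝ) ^ 2 := by nlinarith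
  have hw : ∀ e : Mark, ∀ x : ℕ, x < N → 0 < om N M e x := fun e x hx => om_pos hM e x hx
  have hr : ∀ e : Mark, ∀ x : ℕ, x < N → om N M e x * om N M e (N - 1 - x) = 1 :=
    fun e x hx => om_refl hM e x hx
  have mono : ∀ {C1 C2 : ℝ} {ms : List Mark} {f : List (Fin N) → ℂ}, C1 ≤ C2 →
      Gen.Bd (om N M) C1 ms f → Gen.Bd (om N M) C2 ms f := fun h h1 s hs => (h1 s hs).trans h
  have hexp : (1 : ℝ) ≤ Real.exp (N * (0 / (2 * π) + ε)) := by
    rw [zero_div, zero_add]
    exact Real.one_le_exp (by positivity)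
  have hcc2 : (N : ℝ) ^ 2 * C ≤ (N : ℝ) ^ 2 * (1 * Real.exp (N * (0 / (2 * π) + ε)) *
      M ^ (((0 : ℕ) : ℝ) * (((N : ℝ) - 1) / 2))) * C := by
    rw [one_mul, Nat.cast_zero, zero_mul, Real.rpow_zero, mul_one]
    calc (N : ℝ) ^ 2 * C = ((N : ℝ) ^ 2 * 1) * C := by ring
      _ ≤ _ := mul_le_mul_of_nonneg_right (mul_le_mul_of_nonneg_left hexp (by positivity)) hC
  have hcc : C ≤ (N : ℝ) ^ 2 * (1 * Real.exp (N * (0 / (2 * π) + ε)) *
      M ^ (((0 : ℕ) : ℝ) * (((N : ℝ) - 1) / 2))) * C := by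
    refine le_trans ?_ hcc2
    nlinarith
  cases P with
  | cup i e =>
    simp only [MR.step] at hs
    split_ifs at hs with hi
    rw [Option.some.injEq] at hs
    subst hs
    have hl : (ms.take i).length = i := by rw [List.length_take]; omega
    rw [← List.take_append_drop i ms] at hf
    have h := Gen.bd_cup hw hr e hC hf
    rw [hl] at h
    exact mono hcc h
  | cap i =>
    rcases hd : ms.drop i with _ | ⟨a, _ | ⟨b, r⟩⟩
    · simp [MR.step, hd] at hs
    · simp [MR.step, hd] at hs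
    · simp only [MR.step, hd] at hs
      split_ifs at hs with hab
      rw [Option.some.injEq] at hs
      subst hs
      subst hab
      obtain ⟨hl, hms⟩ := take_len hd
      rw [hms] at hf
      have h := Gen.bd_cap hw hr a hC hf
      rw [hl] at h
      exact mono hcc2 h
  | cross i σ o o' u u' =>
    rcases hd : ms.drop i with _ | ⟨a, _ | ⟨b, r⟩⟩
    · simp [MR.step, hd] at hs
    · simp [MR.step, hd] at hs
    · obtain ⟨hl, hms⟩ := take_len hd
      rw [hms] at hf
      have hE0 : 0 ≤ Real.exp (N * (krate o o' u u' / (2 * π) + ε)) *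
          M ^ ((sp o o' u u' : ℝ) * (((N : ℝ) - 1) / 2)) := by
        have := Real.rpow_pos_of_pos (show (0 : ℝ) < M by linarith)
          ((sp o o' u u' : ℝ) * (((N : ℝ) - 1) / 2))
        positivity
      cases σ
      · simp only [MR.step, hd, Bool.false_eq_true, if_false] at hs
        split_ifs at hs with hk hab
        rw [Option.some.injEq] at hs
        subst hs
        obtain ⟨rfl, rfl⟩ := hab
        have h := Gen.bd_two hw (m := 1) (σ := false) (m1 := ms.take i) (m2 := r)
          (e1 := a) (e2 := b) (d1 := o') (d2 := u') hE0 hf (by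
            intro a1 b1 x1 y1
            rw [if_neg (by simp), pow_one]
            exact ent_QQ hM hE hk a1 b1 x1 y1)
        rw [hl] at h
        refine mono (le_of_eq ?_) h
        simp only [MR.cost, MR.kon, MR.rt, MR.sp]
        ring
      · simp only [MR.step, hd, if_true] at hs
        split_ifs at hs with hk hab
        rw [Option.some.injEq] at hs
        subst hs
        obtain ⟨rfl, rfl⟩ := hab
        have h := Gen.bd_two hw (m := 1) (σ := true) (m1 := ms.take i) (m2 := r)
          (e1 := a) (e2 := b) (d1 := u') (d2 := o') hE0 hf (by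
            intro a1 b1 x1 y1
            rw [if_pos rfl, pow_one]
            exact ent_PP hM hE hk a1 b1 x1 y1)
        rw [hl] at h
        refine mono (le_of_eq ?_) h
        simp only [MR.cost, MR.kon, MR.rt, MR.sp]
        ring
  | twist i σ m =>
    rcases hd : ms.drop i with _ | ⟨a, _ | ⟨b, r⟩⟩
    · simp [MR.step, hd] at hs
    · simp [MR.step, hd] at hs
    · simp only [MR.step, hd] at hs
      split_ifs at hs with hab
      rw [Option.some.injEq] at hs
      subst hs
      obtain ⟨rfl, rfl⟩ := hab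
      obtain ⟨hl, hms⟩ := take_len hd
      rw [hms] at hf
      have hfree : ∀ x : ℕ, om N M Mark.free x = 1 := by
        intro x
        simp [om, J, Mark.w, Mark.v]
      have h := Gen.bd_two hw (m := m) (σ := σ) (m1 := ms.take i) (m2 := r)
        (e1 := Mark.free) (e2 := Mark.free) (d1 := Mark.free) (d2 := Mark.free)
        (Pool.Agent.W28.QAT.wt_pos N ε m).le hf (by
          intro a1 b1 x1 y1
          rw [hfree, hfree, hfree, hfree, mul_one, mul_one, mul_one]
          cases σ
          · exact (hTW m (a1, b1) (x1, y1)).2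
          · exact (hTW m (a1, b1) (x1, y1)).1)
      rw [hl, ← hms] at h
      refine mono (le_of_eq ?_) h
      simp only [MR.cost, MR.kon, MR.rt, MR.sp, Pool.Agent.W28.QAT.wt, Nat.cast_zero, zero_mul,
        Real.rpow_zero, mul_one]
      ring

/-- the marks above a diagram -/
def msteps (D : List MR) (ms : List Mark) : Option (List Mark) :=
  D.foldl (fun o P => o.bind P.step) (some ms)

lemma mfoldl_none (D : List MR) :
    D.foldl (fun o P => o.bind P.step) (none : Option (List Mark)) = none := by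
  induction D with
  | nil => rfl
  | cons P D ih => exact ih

theorem mrun_bd {ε M : ℝ} (hN : 1 ≤ N) (hε : 0 ≤ ε) (hM : 1 ≤ M)
    (hTW : ∀ m : ℕ, ∀ p q : Fin N × Fin N,
      ‖(PP N ^ m) p q‖ ≤ Pool.Agent.W28.QAT.wt N ε m ∧ ‖(QQ N ^ m) p q‖ ≤ Pool.Agent.W28.QAT.wt N ε m)
    (hE : Ent N ε M)
    (D : List MR) : ∀ (C : ℝ), 0 ≤ C → ∀ {ms ms' : List Mark}, msteps D ms = some ms' →
    ∀ {f : List (Fin N) → ℂ}, Gen.Bd (om N M) C ms f →
    Gen.Bd (om N M) ((D.map (MR.cost N ε M)).prod * C) ms' (run N (rt N) (D.map MR.piece) f) := by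
  induction D with
  | nil =>
    intro C hC ms ms' hs f hf
    have : ms = ms' := by simpa [msteps] using hs
    subst this
    simpa [run] using hf
  | cons P D ih =>
    intro C hC ms ms' hs f hf
    have hs' : D.foldl (fun o P => o.bind P.step) (P.step ms) = some ms' := hs
    rcases hP : P.step ms with _ | ms1
    · rw [hP, mfoldl_none] at hs'
      exact absurd hs' (by simp)
    · rw [hP] at hs'
      have h1 := mstep_bd hN hε hM hTW hE hC P hP hf
      have h2 := ih (P.cost N ε M * C) (mul_nonneg (cost_pos hN ε hM P).le hC) hs' h1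
      have e2 : run N (rt N) ((P :: D).map MR.piece) f =
          run N (rt N) (D.map MR.piece) (P.piece.act N (rt N) f) := by
        unfold run
        rw [List.map_cons, List.foldl_cons]
      rw [e2, List.map_cons, List.prod_cons]
      refine fun s hs => (h2 s hs).trans (le_of_eq ?_)
      ring

/-- the number of special crossings of a diagram -/
def sps (D : List MR) : ℕ := (D.map MR.sp).sum

lemma prod_pos' (hN : 1 ≤ N) (ε : ℝ) {M : ℝ} (hM : 1 ≤ M) (D : List MR) :
    0 < (D.map (MR.cost N ε M)).prod := by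
  induction D with
  | nil => simp
  | cons P D ih =>
    rw [List.map_cons, List.prod_cons]
    exact mul_pos (cost_pos hN ε hM P) ih

/-- the bound without the power of `M` -/
noncomputable def MR.cost0 (N : ℕ) (ε : ℝ) (P : MR) : ℝ :=
  (N : ℝ) ^ 2 * (P.kon * Real.exp (N * (P.rt / (2 * π) + ε)))

lemma cost0_pos (hN : 1 ≤ N) (ε : ℝ) (P : MR) : 0 < P.cost0 N ε := by
  have hNr : (0 : ℝ) < N := by exact_mod_cast hN
  have := kon_pos P
  unfold MR.cost0
  positivity

lemma prod0_pos (hN : 1 ≤ N) (ε : ℝ) (D : List MR) : 0 < (D.map (MR.cost0 N ε)).prod := by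
  induction D with
  | nil => simp
  | cons P D ih =>
    rw [List.map_cons, List.prod_cons]
    exact mul_pos (cost0_pos hN ε P) ih

lemma prod_split (ε : ℝ) {M : ℝ} (hM : 1 ≤ M) (D : List MR) :
    (D.map (MR.cost N ε M)).prod =
      (D.map (MR.cost0 N ε)).prod * M ^ ((sps D : ℝ) * (((N : ℝ) - 1) / 2)) := by
  have hM0 : 0 < M := by linarith
  induction D with
  | nil => simp [sps]
  | cons P D ih =>
    have e1 : sps (P :: D) = P.sp + sps D := by simp [sps]
    rw [List.map_cons, List.prod_cons, ih, List.map_cons, List.prod_cons, e1]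
    unfold MR.cost MR.cost0
    push_cast
    rw [add_mul, Real.rpow_add hM0]
    ring

/-- **the bound of the invariant** -/
theorem mjones_bd {ε M : ℝ} (hN : 1 ≤ N) (hε : 0 ≤ ε) (hM : 1 ≤ M)
    (hTW : ∀ m : ℕ, ∀ p q : Fin N × Fin N,
      ‖(PP N ^ m) p q‖ ≤ Pool.Agent.W28.QAT.wt N ε m ∧ ‖(QQ N ^ m) p q‖ ≤ Pool.Agent.W28.QAT.wt N ε m)
    (hE : Ent N ε M)
    (D : List MR) {e d : Mark} (hs : msteps D [e] = some [d]) (hsp : (sps D : ℤ) = e.v - d.v) :
    ‖jones N (D.map MR.piece) (rt N)‖ ≤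
      (D.map (MR.cost0 N ε)).prod * W N 0 0 ^ (e.w - d.w) := by
  have h0 : 0 < N := hN
  have hM0 : 0 < M := by linarith
  unfold jones
  rw [dif_pos h0]
  set f0 : List (Fin N) → ℂ := fun s => if s = [(⟨0, h0⟩ : Fin N)] then 1 else 0 with hf0
  have hW := W_pos (N := N) (l := 0) h0
  have hB0 : Gen.Bd (om N M) (om N M e 0) [e] f0 := by
    intro s hs
    by_cases h : s = [(⟨0, h0⟩ : Fin N)]
    · rw [h, hf0]
      simp [Gen.wgt]
    · rw [hf0]
      dsimp only
      rw [if_neg h, norm_zero, zero_mul]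
      exact (om_pos hM e 0 h0).le
  have h1 := mrun_bd hN hε hM hTW hE D _ (om_pos hM e 0 h0).le hs hB0 [⟨0, h0⟩] rfl
  have e1 : Gen.wgt (om N M) [d] [(⟨0, h0⟩ : Fin N)] = om N M d 0 := by simp [Gen.wgt]
  rw [e1, prod_split ε hM D] at h1
  have hd := om_pos hM d 0 h0
  rw [← le_div_iff₀ hd] at h1
  refine h1.trans (le_of_eq ?_)
  unfold om J
  rw [zpow_sub₀ hW.ne']
  have hJd : 0 < W N 0 0 ^ d.w := zpow_pos hW _
  have hMd : 0 < M ^ ((((0 : ℕ) : ℝ) - ((N : ℝ) - 1) / 2) * (d.v : ℝ)) :=
    Real.rpow_pos_of_pos hM0 _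
  have hsr : (sps D : ℝ) = (e.v : ℝ) - d.v := by exact_mod_cast hsp
  have hMM : M ^ ((sps D : ℝ) * (((N : ℝ) - 1) / 2)) *
      M ^ ((((0 : ℕ) : ℝ) - ((N : ℝ) - 1) / 2) * (e.v : ℝ)) =
      M ^ ((((0 : ℕ) : ℝ) - ((N : ℝ) - 1) / 2) * (d.v : ℝ)) := by
    rw [← Real.rpow_add hM0, hsr]
    congr 1
    push_cast
    ring
  rw [div_eq_iff (mul_pos hJd hMd).ne']
  calc _ = (D.map (MR.cost0 N ε)).prod * W N 0 0 ^ e.w *
        (M ^ ((sps D : ℝ) * (((N : ℝ) - 1) / 2)) *
          M ^ ((((0 : ℕ) : ℝ) - ((N : ℝ) - 1) / 2) * (e.v : ℝ))) := by ring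
    _ = _ := by
        rw [hMM]
        field_simp

lemma log_prod0 (hN : 1 ≤ N) (ε : ℝ) (D : List MR) : Real.log ((D.map (MR.cost0 N ε)).prod) =
    D.length * (2 * Real.log N) + (D.map (fun P : MR => Real.log P.kon)).sum +
      N / (2 * π) * (D.map MR.rt).sum + N * ε * D.length := by
  have hNr : (0 : ℝ) < N := by exact_mod_cast hN
  induction D with
  | nil => simp
  | cons P D ih =>
    rw [List.map_cons, List.prod_cons, Real.log_mul (cost0_pos hN ε P).ne' (prod0_pos hN ε D).ne',
      ih, List.map_cons, List.sum_cons, List.map_cons, List.sum_cons, List.length_cons]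
    unfold MR.cost0
    rw [Real.log_mul (by positivity) (mul_pos (kon_pos P) (Real.exp_pos _)).ne',
      Real.log_mul (kon_pos P).ne' (Real.exp_pos _).ne', Real.log_exp, Real.log_pow]
    push_cast
    ring

lemma rsum_nonneg (D : List MR) : 0 ≤ (D.map MR.rt).sum :=
  List.sum_nonneg fun x hx => by
    obtain ⟨P, -, rfl⟩ := List.mem_map.1 hx
    exact rt_nonneg P

/-- **the growth of the Kashaev invariant, by the kinds of the crossings** -/
theorem mark_growth (D : List MR) {e d : Mark} (hs : msteps D [e] = some [d])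
    (hsp : (sps D : ℤ) = e.v - d.v) {ε : ℝ} (hε : 0 < ε) :
    ∀ᶠ N : ℕ in atTop, 2 * π * (Real.log ‖jones N (D.map MR.piece) (Pool.Agent.W715.VC.rt N)‖ / N) ≤
      (D.map MR.rt).sum + ε := by
  have hpi := Real.pi_pos
  set g : ℤ := e.w - d.w with hg
  set T : ℝ := (D.length : ℝ) + (g.natAbs : ℝ) + 1 with hT
  have hT0 : 0 < T := by positivity
  set δ : ℝ := ε / (4 * π * T) with hδd
  have hδ : 0 < δ := by positivity
  set K : ℝ := (D.map (fun P : MR => Real.log P.kon)).sum with hK
  have hlim : Tendsto (fun N : ℕ => 2 * π * (((D.length : ℝ) * (2 * Real.log N) + K +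
      (g.natAbs : ℝ) * (Real.log N + 1)) / N)) atTop (𝓝 0) := by
    have h1 : Tendsto (fun N : ℕ => Real.log (N : ℝ) / N) atTop (𝓝 0) := by
      have := (Real.isLittleO_log_id_atTop.tendsto_div_nhds_zero).comp
        (tendsto_natCast_atTop_atTop (R := ℝ))
      exact this
    have h2 : Tendsto (fun N : ℕ => (1 : ℝ) / N) atTop (𝓝 0) := tendsto_one_div_atTop_nhds_zero_nat
    have h3 := ((h1.const_mul (2 * (D.length : ℝ) + (g.natAbs : ℝ))).add
      (h2.const_mul (K + (g.natAbs : ℝ)))).const_mul (2 * π)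
    simp only [mul_zero, add_zero] at h3
    refine h3.congr fun N => ?_
    ring
  filter_upwards [Pool.Agent.W709.QAT.tw δ hδ, ent δ hδ, Pool.Agent.W563.QAT.lb δ hδ,
    eventually_ge_atTop 2, hlim.eventually (gt_mem_nhds (show (0 : ℝ) < ε / 2 by positivity))]
    with N h1 hA h2 hN2 h4
  obtain ⟨M, hM, hE⟩ := hA
  have hN : 1 ≤ N := by omega
  have hNr : (0 : ℝ) < N := by exact_mod_cast hN
  have hJ := mjones_bd hN hδ.le hM h1 hE D hs hsp
  have hRHS : 0 ≤ (D.map MR.rt).sum + ε := by
    have := rsum_nonneg D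
    linarith
  rcases (norm_nonneg (jones N (D.map MR.piece) (Pool.Agent.W715.VC.rt N))).eq_or_lt with h0 | h0
  · rw [← h0, Real.log_zero, zero_div, mul_zero]
    exact hRHS
  have hW := W_pos (N := N) (l := 0) (x := 0) (by omega)
  have hlog := Real.log_le_log h0 hJ
  rw [Real.log_mul (prod0_pos hN δ D).ne' (zpow_pos hW _).ne', log_prod0 hN, Real.log_zpow,
    ← hg] at hlog
  have hF := log_top hN h2
  have hF1 : 0 < Fa N (N - 1) := Fa_pos (by omega)
  have hN1 : (2 : ℝ) ≤ N := by exact_mod_cast hN2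
  have hlogN : 0 ≤ Real.log (N : ℝ) := Real.log_nonneg (by linarith)
  have hF2 : -(δ * N) ≤ Real.log (Fa N (N - 1)) := by
    obtain ⟨-, h5⟩ := h2 (N - 1) (by omega)
    have e3 : π * ((N - 1 : ℕ) : ℝ) / N = π - π / N := by
      rw [Nat.cast_sub hN]
      push_cast
      field_simp
    rw [e3, lob_pi_sub] at h5
    have h6 := (abs_le.1 h5).1
    have h7 : 0 ≤ lob (π / N) := EvenVol.LobIneq.lob_nonneg (by positivity) (by
      rw [div_le_div_iff₀ hNr (by norm_num)]
      nlinarith)
    have h8 : 0 ≤ (N : ℝ) / π * lob (π / N) := by positivity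
    linarith
  have hW0 : |Real.log (W N 0 0)| ≤ (Real.log N + 1) + δ * N := by
    have e1 : Real.log (W N 0 0) = -(Real.log (Fa N (N - 1)) / 2) := by
      rw [W_zero_l, Fa_zero, one_div, Real.log_inv, Real.log_sqrt hF1.le]
    rw [e1, abs_neg, abs_le]
    have hδN : 0 ≤ δ * N := by positivity
    constructor <;> linarith
  have b1 : (g : ℝ) * Real.log (W N 0 0) ≤ (g.natAbs : ℝ) * ((Real.log N + 1) + δ * N) := by
    refine (le_abs_self _).trans ?_
    rw [abs_mul]
    have e2 : |(g : ℝ)| = (g.natAbs : ℝ) := by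
      rw [Nat.cast_natAbs, Int.cast_abs]
    rw [e2]
    exact mul_le_mul_of_nonneg_left hW0 (by positivity)
  have b2 : Real.log ‖jones N (D.map MR.piece) (Pool.Agent.W715.VC.rt N)‖ ≤
      ((D.length : ℝ) * (2 * Real.log N) + K + (g.natAbs : ℝ) * (Real.log N + 1)) +
      N * ((D.map MR.rt).sum / (2 * π) + δ * ((D.length : ℝ) + (g.natAbs : ℝ))) := by
    refine hlog.trans ?_
    have e1 : ((D.length : ℝ) * (2 * Real.log N) + K + (g.natAbs : ℝ) * (Real.log N + 1)) +
      N * ((D.map MR.rt).sum / (2 * π) + δ * ((D.length : ℝ) + (g.natAbs : ℝ))) =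
      (D.length * (2 * Real.log N) + K + N / (2 * π) * (D.map MR.rt).sum + N * δ * D.length) +
      (g.natAbs : ℝ) * ((Real.log N + 1) + δ * N) := by ring
    rw [e1]
    linarith
  have b3 := mul_le_mul_of_nonneg_left (div_le_div_of_nonneg_right b2 hNr.le)
    (show (0 : ℝ) ≤ 2 * π by positivity)
  refine b3.trans ?_
  have e2 : 2 * π * ((((D.length : ℝ) * (2 * Real.log N) + K +
      (g.natAbs : ℝ) * (Real.log N + 1)) +
      N * ((D.map MR.rt).sum / (2 * π) + δ * ((D.length : ℝ) + (g.natAbs : ℝ)))) / N) =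
      2 * π * (((D.length : ℝ) * (2 * Real.log N) + K +
      (g.natAbs : ℝ) * (Real.log N + 1)) / N) + (D.map MR.rt).sum +
        2 * π * δ * ((D.length : ℝ) + (g.natAbs : ℝ)) := by
    field_simp
    ring
  rw [e2]
  have b4 : 2 * π * δ * ((D.length : ℝ) + (g.natAbs : ℝ)) ≤ ε / 2 := by
    have c1 : (D.length : ℝ) + (g.natAbs : ℝ) ≤ T := by rw [hT]; linarith
    have c2 : 2 * π * δ * T = ε / 2 := by
      rw [hδd]
      field_simp
      ring
    rw [← c2]
    exact mul_le_mul_of_nonneg_left c1 (by positivity)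
  linarith

end Pool.Agent.K7.H9.VC.Mrk
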